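import Pool.Agent.H964.SL.Geo3

/-!
# Geometry of paths: subdivision with anisotropic cells
-/

set_option autoImplicit false

namespace Pool.Agent.H964

/-- a portion of a path and an approximating segment (anisotropic closeness) -/
structure Node2 (x : ℕ → ℂ) (ε η : ℝ) (i j : ℕ) (u v : ℂ) : Prop where
  lt : i < j
  step : ∀ k, i ≤ k → k < j → ‖x (k + 1) - x k‖ ≤ ε
  hu : |((x i - u) / (v - u)).re| ≤ η ^ 2 ∧ |((x i - u) / (v - u)).im| ≤ η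
  hv : |((x j - v) / (v - u)).re| ≤ η ^ 2 ∧ |((x j - v) / (v - u)).im| ≤ η

/-- admissible refinements of the segment `[u, v]` -/
structure Valid2 (η : ℝ) (M : ℕ) (u v u' c c' v' : ℂ) : Prop where
  d1 : ‖u' - u‖ ≤ 2 * (M * η) * ‖u - v‖
  d2 : ‖c - (u + v) / 2‖ ≤ 2 * (M * η) * ‖u - v‖
  d3 : ‖c' - (u + v) / 2‖ ≤ 2 * (M * η) * ‖u - v‖
  d4 : ‖v' - v‖ ≤ 2 * (M * η) * ‖u - v‖
  l1 : ‖u - v‖ / 4 ≤ ‖u' - c‖
  l2 : ‖u - v‖ / 4 ≤ ‖c' - v'‖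
  L1 : ‖u' - c‖ ≤ 4 / 5 * ‖u - v‖
  L2 : ‖c' - v'‖ ≤ 4 / 5 * ‖u - v‖
  g1 : (1 + (M * η) ^ 2 / 2 - 58 * M * η ^ 2) * ‖u - v‖ ^ 2 ≤ 4 * ‖u' - c‖ ^ 2
  g2 : (1 + (M * η) ^ 2 / 2 - 58 * M * η ^ 2) * ‖u - v‖ ^ 2 ≤ 4 * ‖c' - v'‖ ^ 2
  b1 : ‖u' - u‖ ≤ ‖u - v‖
  b3 : ‖c' - u‖ ≤ 2 * ‖u - v‖

/-- the affine parametrisation of the plane by the segment `[u, v]` -/
noncomputable def fz (u v z : ℂ) : ℂ := u + z * (v - u)

theorem fz_sub (u v a b : ℂ) : fz u v a - fz u v b = (a - b) * (v - u) := by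
  unfold fz; ring

theorem fz_zero (u v : ℂ) : fz u v 0 = u := by unfold fz; ring

theorem fz_one (u v : ℂ) : fz u v 1 = v := by unfold fz; ring

theorem fz_half (u v : ℂ) : fz u v (1 / 2) = (u + v) / 2 := by unfold fz; ring

theorem norm_fz_sub (u v a b : ℂ) : ‖fz u v a - fz u v b‖ = ‖a - b‖ * ‖u - v‖ := by
  rw [fz_sub, norm_mul, norm_sub_rev v u]

theorem exists_children2 {x : ℕ → ℂ} {ε η : ℝ} (hε : 0 < ε) (hη : 0 < η) (hη1 : η ≤ 1 / 100)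
    {i j : ℕ} {u v : ℂ} (hN : Node2 x ε η i j u v) (hr : ε ≤ η ^ 2 * ‖u - v‖) {Mx : ℕ}
    (hMx : 1 ≤ Mx * η) (hMx2 : Mx * η ≤ 1 + η) :
    ∃ M : ℕ, 1 ≤ M ∧ M ≤ Mx ∧ ∃ n₁ ∈ Bx (65 * M ^ 2), ∃ n₂ ∈ Bx (65 * M ^ 2), ∃ n₃ ∈ Bx (65 * M ^ 2),
      ∃ n₄ ∈ Bx (65 * M ^ 2), ∃ k₁ k₂, i < k₁ ∧ k₁ ≤ k₂ ∧ k₂ < j ∧
      Valid2 η M u v (fz u v (gq η M 0 n₁)) (fz u v (gq η M (1 / 2) n₂))
        (fz u v (gq η M (1 / 2) n₃)) (fz u v (gq η M 1 n₄)) ∧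
      Node2 x ε η i k₁ (fz u v (gq η M 0 n₁)) (fz u v (gq η M (1 / 2) n₂)) ∧
      Node2 x ε η k₂ j (fz u v (gq η M (1 / 2) n₃)) (fz u v (gq η M 1 n₄)) := by
  obtain ⟨hij, hstep, hu, hv⟩ := hN
  have hr0 : 0 < ‖u - v‖ := by
    have h1 : 0 < η ^ 2 * ‖u - v‖ := lt_of_lt_of_le hε hr
    exact (pos_iff_pos_of_mul_pos h1).1 (by positivity)
  have hne : v - u ≠ 0 := by
    intro h
    rw [norm_sub_rev, h, norm_zero] at hr0
    exact lt_irrefl _ hr0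
  set y : ℕ → ℂ := fun k => (x k - u) / (v - u) with hy
  have hyx : ∀ k, x k = fz u v (y k) := by
    intro k
    simp only [hy, fz]
    field_simp
    ring
  have hstep' : ∀ k, i ≤ k → k < j → ‖y (k + 1) - y k‖ ≤ η ^ 2 := by
    intro k h1 h2
    have h3 := hstep k h1 h2
    rw [hyx, hyx, norm_fz_sub] at h3
    exact le_of_mul_le_mul_right (h3.trans hr) hr0
  have hj' : |(y j - 1).re| ≤ η ^ 2 ∧ |(y j - 1).im| ≤ η := by
    have e : y j - 1 = (x j - v) / (v - u) := by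
      simp only [hy]
      field_simp
      ring
    rw [e]
    exact hv
  obtain ⟨M, hM1, hM2, n₁, m1, n₂, m2, n₃, m3, n₄, m4, k₁, k₂, hok⟩ :=
    children_norm hη hη1 hij hstep' hu hj' hMx hMx2
  obtain ⟨h1, h2, h3, c1, c2, c3, c4, e1, e2, d1, d2, d3, d4, b1, b3⟩ := hok
  refine ⟨M, hM1, hM2, n₁, m1, n₂, m2, n₃, m3, n₄, m4, k₁, k₂, h1, h2, h3, ?_, ?_, ?_⟩
  · have w1 : ∀ a : ℂ, ‖fz u v a - u‖ = ‖a‖ * ‖u - v‖ := by
      intro a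
      calc ‖fz u v a - u‖ = ‖fz u v a - fz u v 0‖ := by rw [fz_zero]
        _ = _ := by rw [norm_fz_sub, sub_zero]
    have w2 : ∀ a : ℂ, ‖fz u v a - v‖ = ‖a - 1‖ * ‖u - v‖ := by
      intro a
      calc ‖fz u v a - v‖ = ‖fz u v a - fz u v 1‖ := by rw [fz_one]
        _ = _ := norm_fz_sub _ _ _ _
    have w3 : ∀ a : ℂ, ‖fz u v a - (u + v) / 2‖ = ‖a - 1 / 2‖ * ‖u - v‖ := by
      intro a
      rw [← fz_half, norm_fz_sub]
    have w4 : ∀ a b : ℂ, ‖fz u v a - fz u v b‖ = ‖b - a‖ * ‖u - v‖ := by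
      intro a b
      rw [norm_fz_sub, norm_sub_rev a b]
    refine ⟨?_, ?_, ?_, ?_, ?_, ?_, ?_, ?_, ?_, ?_, ?_, ?_⟩
    · rw [w1]; gcongr
    · rw [w3]; gcongr
    · rw [w3]; gcongr
    · rw [w2]; gcongr
    · rw [w4]
      have := e1.lo
      nlinarith
    · rw [w4]
      have := e2.lo
      nlinarith
    · rw [w4]
      have := e1.hi
      gcongr
    · rw [w4]
      have := e2.hi
      gcongr
    · have h5 : 4 * ‖fz u v (gq η M 0 n₁) - fz u v (gq η M (1 / 2) n₂)‖ ^ 2 =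
          4 * ‖gq η M (1 / 2) n₂ - gq η M 0 n₁‖ ^ 2 * ‖u - v‖ ^ 2 := by rw [w4]; ring
      rw [h5]
      exact mul_le_mul_of_nonneg_right e1.gain (by positivity)
    · have h5 : 4 * ‖fz u v (gq η M (1 / 2) n₃) - fz u v (gq η M 1 n₄)‖ ^ 2 =
          4 * ‖gq η M 1 n₄ - gq η M (1 / 2) n₃‖ ^ 2 * ‖u - v‖ ^ 2 := by rw [w4]; ring
      rw [h5]
      exact mul_le_mul_of_nonneg_right e2.gain (by positivity)
    · rw [w1]
      nlinarith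
    · rw [w1]
      gcongr
  · have hd : fz u v (gq η M (1 / 2) n₂) - fz u v (gq η M 0 n₁) =
        (gq η M (1 / 2) n₂ - gq η M 0 n₁) * (v - u) := fz_sub _ _ _ _
    have q1 := close_div hη hη1 hM1 c1 e1.lo e1.im
    have q2 := close_div hη hη1 hM1 c2 e1.lo e1.im
    refine ⟨h1, fun k a b => hstep k a (by omega), ?_, ?_⟩
    · rw [hd, hyx i, fz_sub, mul_div_mul_right _ _ hne]
      exact q1
    · rw [hd, hyx k₁, fz_sub, mul_div_mul_right _ _ hne]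
      exact q2
  · have hd : fz u v (gq η M 1 n₄) - fz u v (gq η M (1 / 2) n₃) =
        (gq η M 1 n₄ - gq η M (1 / 2) n₃) * (v - u) := fz_sub _ _ _ _
    have q1 := close_div hη hη1 hM1 c3 e2.lo e2.im
    have q2 := close_div hη hη1 hM1 c4 e2.lo e2.im
    refine ⟨h3, fun k a b => hstep k (by omega) b, ?_, ?_⟩
    · rw [hd, hyx k₂, fz_sub, mul_div_mul_right _ _ hne]
      exact q1
    · rw [hd, hyx j, fz_sub, mul_div_mul_right _ _ hne]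
      exact q2

/-- the first point of the portion of the path is near the first end point of the segment -/
theorem Node2.near {x : ℕ → ℂ} {ε η : ℝ} (hη : 0 < η) (hη1 : η ≤ 1 / 100) {i j : ℕ} {u v : ℂ}
    (hN : Node2 x ε η i j u v) (hr : 0 < ‖u - v‖) : ‖x i - u‖ ≤ 2 * η * ‖u - v‖ := by
  have hne : v - u ≠ 0 := by
    intro h
    rw [norm_sub_rev, h, norm_zero] at hr
    exact lt_irrefl _ hr
  have e : x i - u = ((x i - u) / (v - u)) * (v - u) := by field_simp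
  rw [e, norm_mul, norm_sub_rev v u]
  apply mul_le_mul_of_nonneg_right _ hr.le
  refine (norm_le_add_abs _).trans ?_
  have h1 := hN.hu.1
  have h2 := hN.hu.2
  nlinarith

end Pool.Agent.H964
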