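import Pool.Agent.H964.LF.Exp
import Pool.Agent.H964.SL.Pw2

/-!
# The expectation of the potential (anisotropic cells)
-/

set_option autoImplicit false

namespace Pool.Agent.H964

open MeasureTheory ProbabilityTheory Real Filter Topology
open Pool.Agent.Y980

theorem log_low2 {t A B : ℝ} (ht0 : 1 / 4 ≤ t) (ht1 : t ≤ 64 / 25) (hA : 0 ≤ A) (hB : 0 ≤ B)
    (h : 1 + A - B ≤ t) : A / 3 - 4 * B ≤ log t := by
  have htpos : 0 < t := by linarith
  have h2 := one_sub_inv_le_log_of_pos htpos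
  have h3 : 1 - t⁻¹ = (t - 1) / t := by field_simp
  rw [h3] at h2
  refine le_trans ?_ h2
  rcases le_or_gt 1 t with h1 | h1
  · have h4 : (t - 1) / 3 ≤ (t - 1) / t := by
      apply div_le_div_of_nonneg_left (by linarith) htpos (by linarith)
    linarith
  · have h4 : 4 * (t - 1) ≤ (t - 1) / t := by
      rw [le_div_iff₀ htpos]
      nlinarith
    linarith

theorem step_real2 {p b η y : ℝ} {M : ℕ} (hp : 0 < p) (hpη : p * η ^ 2 = 1) (hb0 : 0 ≤ b)
    (hb : b ≤ p / 2) (hy0 : 1 / 2 ≤ y) (hy1 : y ≤ 8 / 5)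
    (hg : 1 + (M * η) ^ 2 / 2 - 58 * M * η ^ 2 ≤ y ^ 2) :
    2 ^ (-p) * (y / 2) ^ (b - p) ≤ 2 ^ (-b) * exp (116 * M - M ^ 2 / 24) := by
  have hypos : 0 < y := by linarith
  have hl := log_low2 (t := y ^ 2) (A := (M * η) ^ 2 / 2) (B := 58 * M * η ^ 2)
    (by nlinarith) (by nlinarith) (by positivity) (by positivity) hg
  rw [Real.log_pow] at hl
  push_cast at hl
  have e1 : (2 : ℝ) ^ (-p) * (y / 2) ^ (b - p) = 2 ^ (-b) * exp ((b - p) * log y) := by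
    rw [Real.div_rpow hypos.le (by norm_num), Real.rpow_def_of_pos hypos, mul_comm (log y) (b - p)]
    have : (2 : ℝ) ^ (-p) = 2 ^ (-b) * 2 ^ (b - p) := by
      rw [← Real.rpow_add (by norm_num)]; congr 1; ring
    rw [this]
    field_simp
  rw [e1]
  apply mul_le_mul_of_nonneg_left _ (by positivity)
  apply Real.exp_le_exp.2
  have h1 : (b - p) * log y ≤ (b - p) * (((M * η) ^ 2 / 2 / 3 - 4 * (58 * M * η ^ 2)) / 2) :=
    mul_le_mul_of_nonpos_left (by linarith) (by linarith)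
  have h2 : (b - p) * ((M * η) ^ 2 / 2 / 3 / 2) ≤ -(p / 2) * ((M * η) ^ 2 / 2 / 3 / 2) :=
    mul_le_mul_of_nonneg_right (by linarith) (by positivity)
  have h3 : (p - b) * (4 * (58 * M * η ^ 2) / 2) ≤ p * (4 * (58 * M * η ^ 2) / 2) :=
    mul_le_mul_of_nonneg_right (by linarith) (by positivity)
  have e2 : p * (4 * (58 * M * η ^ 2) / 2) = 116 * M * (p * η ^ 2) := by ring
  have e3 : -(p / 2) * ((M * η) ^ 2 / 2 / 3 / 2) = -(M ^ 2 / 24) * (p * η ^ 2) := by ring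
  rw [e2, hpη] at h3
  rw [e3, hpη] at h2
  have e4 : (b - p) * (((M * η) ^ 2 / 2 / 3 - 4 * (58 * M * η ^ 2)) / 2) =
      (b - p) * ((M * η) ^ 2 / 2 / 3 / 2) + (p - b) * (4 * (58 * M * η ^ 2) / 2) := by ring
  rw [e4] at h1
  linarith

/-- the sum over all the classes of refinements -/
theorem sum_classes (Mx : ℕ) : ∑ M ∈ Finset.Icc 1 Mx, (130 * (M : ℝ) ^ 2 + 1) ^ 8 *
    (2 * (2 ^ (-(10 ^ 12 : ℝ)) * exp (101436 * M - M ^ 2 / 24))) ≤ 1 := by
  have hterm : ∀ M ∈ Finset.Icc 1 Mx, (130 * (M : ℝ) ^ 2 + 1) ^ 8 *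
      (2 * (2 ^ (-(10 ^ 12 : ℝ)) * exp (101436 * M - M ^ 2 / 24))) ≤ (1 / 2) ^ M := by
    intro M hM
    rw [Finset.mem_Icc] at hM
    have hM1 : (1 : ℝ) ≤ M := by exact_mod_cast hM.1
    have a1 : (M : ℝ) ^ 2 ≤ exp (2 * M) := by
      have := Real.add_one_le_exp (M : ℝ)
      calc (M : ℝ) ^ 2 ≤ (exp M) ^ 2 := by gcongr; linarith
        _ = exp (2 * M) := by rw [← Real.exp_nat_mul]; push_cast; ring_nf
    have a2 : (131 : ℝ) ≤ exp 131 := by
      have := Real.add_one_le_exp (131 : ℝ)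
      linarith
    have a3 : 130 * (M : ℝ) ^ 2 + 1 ≤ exp (131 + 2 * M) := by
      rw [Real.exp_add]
      calc 130 * (M : ℝ) ^ 2 + 1 ≤ 131 * (M : ℝ) ^ 2 := by nlinarith
        _ ≤ _ := by gcongr
    have a4 : (130 * (M : ℝ) ^ 2 + 1) ^ 8 ≤ exp (8 * (131 + 2 * M)) := by
      calc (130 * (M : ℝ) ^ 2 + 1) ^ 8 ≤ (exp (131 + 2 * M)) ^ 8 := by gcongr
        _ = _ := by rw [← Real.exp_nat_mul]; push_cast; ring_nf
    have hlog := Real.log_two_gt_d9
    have a5 : (2 : ℝ) ^ (-(10 ^ 12 : ℝ)) = exp (-(10 ^ 12 * log 2)) := by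
      rw [Real.rpow_def_of_pos (by norm_num)]; ring_nf
    have a6 : (1 / 2 : ℝ) ^ M = exp (-(M * log 2)) := by
      rw [Real.exp_neg, Real.exp_nat_mul, Real.exp_log (by norm_num), one_div, inv_pow]
    have a7 : (2 : ℝ) = exp (log 2) := (Real.exp_log (by norm_num)).symm
    have hlog2 : log 2 ≤ 1 := by
      have := Real.log_two_lt_d9
      linarith
    calc (130 * (M : ℝ) ^ 2 + 1) ^ 8 * (2 * (2 ^ (-(10 ^ 12 : ℝ)) * exp (101436 * M - M ^ 2 / 24))) ≤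
        exp (8 * (131 + 2 * M)) * (exp (log 2) * (exp (-(10 ^ 12 * log 2)) *
          exp (101436 * M - M ^ 2 / 24))) := by
          rw [a5]
          rw [Real.exp_log (by norm_num : (0 : ℝ) < 2)]
          gcongr
      _ = exp (8 * (131 + 2 * M) + (log 2 + (-(10 ^ 12 * log 2) + (101436 * M - M ^ 2 / 24)))) := by
          rw [Real.exp_add, Real.exp_add, Real.exp_add]
      _ ≤ exp (-(M * log 2)) := by
          apply Real.exp_le_exp.2
          have b1 : (M : ℝ) * log 2 ≤ M * 1 := by gcongr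
          have b2 : (101453 : ℝ) * M - M ^ 2 / 24 ≤ 6 * 101453 ^ 2 := by
            nlinarith [sq_nonneg ((M : ℝ) / 2 - 6 * 101453)]
          norm_num at b2 hlog ⊢
          linarith
      _ = _ := a6.symm
  calc _ ≤ ∑ M ∈ Finset.Icc 1 Mx, (1 / 2 : ℝ) ^ M := Finset.sum_le_sum hterm
    _ ≤ 1 := by
      have : ∀ n : ℕ, ∑ M ∈ Finset.Icc 1 n, (1 / 2 : ℝ) ^ M = 1 - (1 / 2) ^ n := by
        intro n
        induction n with
        | zero => simp
        | succ n ih =>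
          rw [Finset.sum_Icc_succ_top (by omega), ih, pow_succ]
          ring
      rw [this]
      have : (0 : ℝ) ≤ (1 / 2) ^ Mx := by positivity
      linarith

variable {Ω : Type*} [MeasurableSpace Ω] {P : Measure Ω} {h : ℝ → ℂ → Ω → ℝ}
variable (hh : IsGFF P h) {ε : ℝ} (hε : 0 < ε)

/-- the constant for short segments -/
noncomputable def B02 (K : ℕ) (ε ξ p η R : ℝ) : ℝ :=
  (8 * K + 2) ^ 2 * (ε ^ (1 - p) *
    exp (2 * ξ ^ 2 * (2 * log (R + 2) - log ε) + 4 * p ^ 2 * ξ ^ 2 * (1 / η ^ 2 + 4 * K)))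

theorem exp_leaf2 {K : ℕ} (hK : 1 ≤ K) {ξ p η R : ℝ} (hη : 0 < η) (hε1 : ε ≤ 1) (hR : 0 ≤ R)
    {D : Lp ℝ 2 P} (hD : D ∈ GG hh hε) {u v : ℂ} (huv : η ^ 2 * ‖u - v‖ < ε) (hu : ‖u‖ + 4 * K ≤ R) :
    ∫⁻ ω, ENNReal.ofReal (exp (-(p * ξ) * D ω) *
      leaf2 K ε ξ p (fun a b => XX hh hε a b ω) (fun z => h ε z ω) u v) ∂P ≤
      ENNReal.ofReal (exp (p ^ 2 * ξ ^ 2 * ‖D‖ ^ 2) * B02 K ε ξ p η R) := by
  have hX : XX hh hε u v ∈ GG hh hε := XX_mem hh hε u v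
  have hmeas : ∀ n : ℤ × ℤ, AEMeasurable (fun ω => ENNReal.ofReal (exp (-(p * ξ) * D ω) *
      (exp (p * ξ * XX hh hε u v ω) * (ε * exp (ξ * h ε (lp ε n) ω)) ^ (1 - p)))) P := by
    intro n
    have m1 : AEMeasurable (D : Ω → ℝ) P := (Lp.aestronglyMeasurable D).aemeasurable
    have m2 : AEMeasurable (XX hh hε u v : Ω → ℝ) P :=
      (Lp.aestronglyMeasurable (XX hh hε u v)).aemeasurable
    have m3 : AEMeasurable (h ε (lp ε n)) P := (hh.measurable ε (lp ε n) hε).aemeasurable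
    apply AEMeasurable.ennreal_ofReal
    apply AEMeasurable.mul
    · exact Real.measurable_exp.comp_aemeasurable (m1.const_mul _)
    · apply AEMeasurable.mul
      · exact Real.measurable_exp.comp_aemeasurable (m2.const_mul _)
      · exact ((Real.measurable_exp.comp_aemeasurable (m3.const_mul _)).const_mul _).pow_const _
  have e1 : ∫⁻ ω, ENNReal.ofReal (exp (-(p * ξ) * D ω) *
      leaf2 K ε ξ p (fun a b => XX hh hε a b ω) (fun z => h ε z ω) u v) ∂P =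
      ∑ n ∈ LB2 K ε u, ∫⁻ ω, ENNReal.ofReal (exp (-(p * ξ) * D ω) *
        (exp (p * ξ * XX hh hε u v ω) * (ε * exp (ξ * h ε (lp ε n) ω)) ^ (1 - p))) ∂P := by
    rw [← lintegral_finsetSum' _ (fun n _ => hmeas n)]
    apply lintegral_congr
    intro ω
    rw [leaf2, Finset.mul_sum, ENNReal.ofReal_sum_of_nonneg]
    intro n _
    positivity
  rw [e1]
  have hterm : ∀ n ∈ LB2 K ε u, ∫⁻ ω, ENNReal.ofReal (exp (-(p * ξ) * D ω) *
        (exp (p * ξ * XX hh hε u v ω) * (ε * exp (ξ * h ε (lp ε n) ω)) ^ (1 - p))) ∂P ≤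
      ENNReal.ofReal (exp (p ^ 2 * ξ ^ 2 * ‖D‖ ^ 2) * (ε ^ (1 - p) *
        exp (2 * ξ ^ 2 * (2 * log (R + 2) - log ε) + 4 * p ^ 2 * ξ ^ 2 * (1 / η ^ 2 + 4 * K)))) := by
    intro n hn
    have hnear := LB2_near hK hε hn
    have hx : ‖lp ε n‖ ≤ R := by
      calc ‖lp ε n‖ = ‖(lp ε n - u) + u‖ := by ring_nf
        _ ≤ ‖lp ε n - u‖ + ‖u‖ := norm_add_le _ _
        _ ≤ 4 * K * ε + ‖u‖ := by gcongr
        _ ≤ 4 * K * 1 + ‖u‖ := by gcongr
        _ ≤ _ := by linarith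
    have hV := norm_HH_sq_le hh hε hR hx hε1
    have hdist : ‖u - v‖ ≤ ε / η ^ 2 := by
      rw [le_div_iff₀ (by positivity)]; linarith
    have hW : ‖XX hh hε u v - HH hh hε (lp ε n)‖ ^ 2 ≤ 2 * (1 / η ^ 2 + 4 * K) := by
      have := norm_XX_sub_HH_le hh hε (a := u) (b := v) (x := lp ε n) (B := ε / η ^ 2 + 4 * K * ε) (by
        intro t ht
        calc ‖pt u v t - lp ε n‖ = ‖(t : ℂ) * (v - u) - (lp ε n - u)‖ := by unfold pt; ring_nf
          _ ≤ ‖(t : ℂ) * (v - u)‖ + ‖lp ε n - u‖ := norm_sub_le _ _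
          _ = t * ‖u - v‖ + ‖lp ε n - u‖ := by
              rw [norm_mul, Complex.norm_real, norm_of_nonneg ht.1, norm_sub_rev v u]
          _ ≤ 1 * ‖u - v‖ + 4 * K * ε := by
              have := ht.2
              gcongr
          _ ≤ _ := by linarith)
      refine this.trans (le_of_eq ?_)
      field_simp
    have := exp_term hh hε (ξ := ξ) (p := p) hD hX (HH_mem hh hε (lp ε n)) hV hW
    rw [show 2 * p ^ 2 * ξ ^ 2 * (2 * (1 / η ^ 2 + 4 * K)) =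
      4 * p ^ 2 * ξ ^ 2 * (1 / η ^ 2 + 4 * K) by ring] at this
    refine le_trans (le_of_eq ?_) this
    apply lintegral_congr_ae
    filter_upwards [HH_coe hh hε (lp ε n)] with ω hω
    rw [hω]
  calc _ ≤ ∑ n ∈ LB2 K ε u, ENNReal.ofReal (exp (p ^ 2 * ξ ^ 2 * ‖D‖ ^ 2) * (ε ^ (1 - p) *
        exp (2 * ξ ^ 2 * (2 * log (R + 2) - log ε) + 4 * p ^ 2 * ξ ^ 2 * (1 / η ^ 2 + 4 * K)))) :=
        Finset.sum_le_sum hterm
    _ = _ := by
        rw [Finset.sum_const, card_LB2, B02, nsmul_eq_mul]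
        rw [show (((8 * K + 2) ^ 2 : ℕ) : ENNReal) = ENNReal.ofReal ((8 * K + 2) ^ 2) by
          rw [← ENNReal.ofReal_natCast]; push_cast; rfl,
          ← ENNReal.ofReal_mul (by positivity)]
        congr 1
        ring

end Pool.Agent.H964
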