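import Pool.Agent.H964.LF.Geo

/-!
# Geometry of paths: anisotropic cells
-/

set_option autoImplicit false

namespace Pool.Agent.H964

theorem core2 {x : ℕ → ℂ} {ε : ℝ} (hε : 0 < ε) {i j : ℕ} (hij : i < j)
    (hx : ∀ k, i ≤ k → k < j → ‖x (k + 1) - x k‖ ≤ ε) (hρ : 8 * ε ≤ ‖x i - x j‖) :
    (∃ k, i < k ∧ k < j ∧ ‖x k - x j‖ ≤ ‖x k - x i‖ ∧ ‖x k - x i‖ ≤ ‖x k - x j‖ + 2 * ε ∧
      ‖x k - x i‖ ≤ 3 / 4 * ‖x i - x j‖) ∨
    (∃ k₁ k₂, i < k₁ ∧ k₁ ≤ k₂ ∧ k₂ < j ∧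
      3 / 4 * ‖x i - x j‖ ≤ ‖x i - x k₁‖ ∧ ‖x i - x k₁‖ ≤ 3 / 4 * ‖x i - x j‖ + ε ∧
      3 / 4 * ‖x i - x j‖ - 2 * ε ≤ ‖x k₂ - x j‖ ∧ ‖x k₂ - x j‖ ≤ 3 / 4 * ‖x i - x j‖ + ε) := by
  set ρ := ‖x i - x j‖ with hρdef
  have hρ0 : 0 < ρ := by linarith
  -- the first time when the path is closer to `x j`
  have hex : ∃ k, i ≤ k ∧ ‖x k - x j‖ ≤ ‖x k - x i‖ := ⟨j, hij.le, by simp⟩
  classical
  obtain ⟨hk1, hk2⟩ := Nat.find_spec hex
  set k := Nat.find hex with hk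
  have hkj : k ≤ j := Nat.find_min' hex ⟨hij.le, by simp⟩
  have hki : i < k := by
    rcases hk1.lt_or_eq with h | h
    · exact h
    · exfalso
      rw [← h] at hk2
      simp only [sub_self, norm_zero] at hk2
      linarith
  obtain ⟨l, hkl⟩ : ∃ l, k = l + 1 := ⟨k - 1, by omega⟩
  have hl : ‖x l - x i‖ < ‖x l - x j‖ := by
    have := Nat.find_min hex (m := l) (by omega)
    push Not at this
    exact this (by omega)
  rw [hkl] at hk1 hk2 hkj hki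
  clear_value k
  have hstep := hx l (by omega) (by omega)
  set A := ‖x (l + 1) - x i‖ with hA
  set B := ‖x (l + 1) - x j‖ with hB
  have hAB : A < B + 2 * ε := by
    have e1 : A ≤ ‖x (l + 1) - x l‖ + ‖x l - x i‖ := by
      calc A = ‖(x (l + 1) - x l) + (x l - x i)‖ := by rw [hA]; ring_nf
        _ ≤ _ := norm_add_le _ _
    have e2 : ‖x l - x j‖ ≤ ‖x (l + 1) - x l‖ + B := by
      calc ‖x l - x j‖ = ‖(x (l + 1) - x j) - (x (l + 1) - x l)‖ := by ring_nf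
        _ ≤ B + ‖x (l + 1) - x l‖ := norm_sub_le _ _
        _ = _ := by ring
    linarith
  have hsum : ρ ≤ A + B := by
    calc ρ = ‖(x (l + 1) - x j) - (x (l + 1) - x i)‖ := by rw [hρdef]; ring_nf
      _ ≤ B + A := norm_sub_le _ _
      _ = _ := by ring
  have hlj : l + 1 < j := by
    rcases hkj.lt_or_eq with h | h
    · exact h
    · exfalso
      have e1 : A = ρ := by rw [hA, h, hρdef, norm_sub_rev]
      have e2 : B = 0 := by rw [hB, h]; simp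
      linarith
  rcases le_or_gt A (3 / 4 * ρ) with hcase | hcase
  · -- first case
    exact Or.inl ⟨l + 1, by omega, hlj, hk2, hAB.le, hcase⟩
  · -- second case
    have hex1 : ∃ k, i ≤ k ∧ 3 / 4 * ρ ≤ ‖x i - x k‖ :=
      ⟨l + 1, by omega, by rw [norm_sub_rev, ← hA]; exact hcase.le⟩
    obtain ⟨a1, a2⟩ := Nat.find_spec hex1
    set k₁ := Nat.find hex1 with hk₁
    have a3 : k₁ ≤ l + 1 := Nat.find_min' hex1 ⟨by omega, by rw [norm_sub_rev, ← hA]; exact hcase.le⟩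
    have a4 : i < k₁ := by
      rcases a1.lt_or_eq with h | h
      · exact h
      · exfalso
        rw [← h] at a2
        simp only [sub_self, norm_zero] at a2
        linarith
    obtain ⟨l₁, hl₁⟩ : ∃ l₁, k₁ = l₁ + 1 := ⟨k₁ - 1, by omega⟩
    have a5 : ‖x i - x l₁‖ < 3 / 4 * ρ := by
      have := Nat.find_min hex1 (m := l₁) (by omega)
      push Not at this
      exact this (by omega)
    have a6 : ‖x i - x k₁‖ ≤ 3 / 4 * ρ + ε := by
      have hs := hx l₁ (by omega) (by omega)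
      rw [hl₁]
      calc ‖x i - x (l₁ + 1)‖ = ‖(x i - x l₁) - (x (l₁ + 1) - x l₁)‖ := by ring_nf
        _ ≤ ‖x i - x l₁‖ + ‖x (l₁ + 1) - x l₁‖ := norm_sub_le _ _
        _ ≤ _ := by linarith
    -- the last time
    have hB2 : 3 / 4 * ρ - 2 * ε ≤ ‖x (l + 1) - x j‖ := by rw [← hB]; linarith
    set S := (Finset.Icc (l + 1) j).filter fun k => 3 / 4 * ρ - 2 * ε ≤ ‖x k - x j‖ with hS
    have hSne : S.Nonempty := ⟨l + 1, by rw [hS, Finset.mem_filter, Finset.mem_Icc]; exact ⟨⟨le_rfl, hlj.le⟩, hB2⟩⟩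
    set k₂ := S.max' hSne with hk₂
    have b0 := S.max'_mem hSne
    rw [← hk₂, hS, Finset.mem_filter, Finset.mem_Icc] at b0
    obtain ⟨⟨b1, b2⟩, b3⟩ := b0
    have b4 : k₂ < j := by
      rcases b2.lt_or_eq with h | h
      · exact h
      · exfalso
        rw [h] at b3
        simp only [sub_self, norm_zero] at b3
        linarith
    have b5 : ‖x (k₂ + 1) - x j‖ < 3 / 4 * ρ - 2 * ε := by
      by_contra hcon
      push Not at hcon
      have : k₂ + 1 ∈ S := by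
        rw [hS, Finset.mem_filter, Finset.mem_Icc]
        exact ⟨⟨by omega, by omega⟩, hcon⟩
      have := S.le_max' _ this
      rw [← hk₂] at this
      omega
    have b6 : ‖x k₂ - x j‖ ≤ 3 / 4 * ρ + ε := by
      have hs := hx k₂ (by omega) b4
      calc ‖x k₂ - x j‖ = ‖(x (k₂ + 1) - x j) - (x (k₂ + 1) - x k₂)‖ := by ring_nf
        _ ≤ ‖x (k₂ + 1) - x j‖ + ‖x (k₂ + 1) - x k₂‖ := norm_sub_le _ _
        _ ≤ _ := by linarith
    exact Or.inr ⟨k₁, k₂, a4, by omega, b4, a2, a6, b3, b6⟩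

/-- grid points (normalised) -/
noncomputable def gq (η : ℝ) (M : ℕ) (z₀ : ℂ) (n : ℤ × ℤ) : ℂ :=
  z₀ + ⟨η ^ 2 / 8 * n.1, η / (16 * M) * n.2⟩

/-- closeness to a grid point -/
def Cl (η : ℝ) (M : ℕ) (δ : ℂ) : Prop := |δ.re| ≤ η ^ 2 / 16 ∧ |δ.im| ≤ η / (32 * M)

theorem round_mem {y a : ℝ} (ha : 0 < a) {N : ℕ} (hy : |y| ≤ a * (N - 1)) :
    round (y / a) ∈ Finset.Icc (-(N : ℤ)) N ∧ |y - a * round (y / a)| ≤ a / 2 := by
  have h1 : |y / a - round (y / a)| ≤ 1 / 2 := abs_sub_round _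
  constructor
  · have h2 : |y / a| ≤ N - 1 := by
      rw [abs_div, abs_of_pos ha, div_le_iff₀ ha]; linarith
    rw [abs_le] at h1 h2
    rw [Finset.mem_Icc]
    constructor
    · have : (-(N : ℝ)) ≤ (round (y / a) : ℝ) := by linarith [h1.2, h2.1]
      exact_mod_cast this
    · have : ((round (y / a) : ℤ) : ℝ) ≤ N := by linarith [h1.1, h2.2]
      exact_mod_cast this
  · have e : y - a * round (y / a) = a * (y / a - round (y / a)) := by field_simp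
    rw [e, abs_mul, abs_of_pos ha]
    calc a * |y / a - round (y / a)| ≤ a * (1 / 2) := by gcongr
      _ = a / 2 := by ring

theorem exists_gq {η : ℝ} (hη : 0 < η) {M : ℕ} (hM : 1 ≤ M) {z₀ w : ℂ}
    (h1 : |(w - z₀).re| ≤ 8 * (M * η) ^ 2) (h2 : |(w - z₀).im| ≤ 4 * (M * η)) :
    ∃ n ∈ Bx (65 * M ^ 2), Cl η M (w - gq η M z₀ n) := by
  have hM' : (1 : ℝ) ≤ M := by exact_mod_cast hM
  have hM0 : (0 : ℝ) < M := by linarith
  have hN : (64 : ℝ) * M ^ 2 ≤ ((65 * M ^ 2 : ℕ) : ℝ) - 1 := by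
    push_cast
    nlinarith
  have a1 := round_mem (y := (w - z₀).re) (a := η ^ 2 / 8) (N := 65 * M ^ 2) (by positivity) (by
    calc |(w - z₀).re| ≤ 8 * (M * η) ^ 2 := h1
      _ = η ^ 2 / 8 * (64 * M ^ 2) := by ring
      _ ≤ _ := by gcongr)
  have a2 := round_mem (y := (w - z₀).im) (a := η / (16 * M)) (N := 65 * M ^ 2) (by positivity) (by
    calc |(w - z₀).im| ≤ 4 * (M * η) := h2
      _ = η / (16 * M) * (64 * M ^ 2) := by field_simp; ring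
      _ ≤ _ := by gcongr)
  refine ⟨(round ((w - z₀).re / (η ^ 2 / 8)), round ((w - z₀).im / (η / (16 * M)))), ?_, ?_, ?_⟩
  · unfold Bx
    rw [Finset.mem_product]
    exact ⟨a1.1, a2.1⟩
  · have e1 : (w - gq η M z₀ (round ((w - z₀).re / (η ^ 2 / 8)), round ((w - z₀).im / (η / (16 * M))))).re =
        (w - z₀).re - η ^ 2 / 8 * round ((w - z₀).re / (η ^ 2 / 8)) := by
      simp [gq]; ring
    rw [e1]
    refine a1.2.trans (le_of_eq ?_)
    ring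
  · have e2 : (w - gq η M z₀ (round ((w - z₀).re / (η ^ 2 / 8)), round ((w - z₀).im / (η / (16 * M))))).im =
        (w - z₀).im - η / (16 * M) * round ((w - z₀).im / (η / (16 * M))) := by
      simp [gq]; ring
    rw [e2]
    refine a2.2.trans (le_of_eq ?_)
    field_simp
    ring

theorem Cl.norm_le {η : ℝ} (hη : 0 < η) (hη1 : η ≤ 1 / 100) {M : ℕ} (hM : 1 ≤ M) {δ : ℂ} (h : Cl η M δ) :
    ‖δ‖ ≤ η / 30 ∧ |δ.im| ≤ η / 32 := by
  have hM' : (1 : ℝ) ≤ M := by exact_mod_cast hM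
  have h2 : η / (32 * M) ≤ η / 32 := by
    apply div_le_div_of_nonneg_left hη.le (by norm_num)
    linarith
  constructor
  · refine (Complex.norm_le_abs_re_add_abs_im _).trans ?_
    have h1 := h.1
    have h3 := h.2
    nlinarith
  · exact h.2.trans h2

/-- closeness in the coordinates of a child -/
theorem close_div {η : ℝ} (hη : 0 < η) (hη1 : η ≤ 1 / 100) {M : ℕ} (hM : 1 ≤ M) {δ e : ℂ}
    (h : Cl η M δ) (he : 48 / 100 ≤ ‖e‖) (him : |e.im| ≤ 3 * (M * η)) :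
    |(δ / e).re| ≤ η ^ 2 ∧ |(δ / e).im| ≤ η := by
  have hM' : (1 : ℝ) ≤ M := by exact_mod_cast hM
  have hM0 : (0 : ℝ) < M := by linarith
  have hn : 0 < ‖e‖ := by linarith
  have hN : Complex.normSq e = ‖e‖ ^ 2 := Complex.normSq_eq_norm_sq e
  have hre := Complex.abs_re_le_norm e
  have him2 := Complex.abs_im_le_norm e
  have hinv : ‖e‖⁻¹ ≤ 25 / 12 := by
    rw [inv_le_comm₀ hn (by norm_num)]; linarith
  have hinv2 : (‖e‖ ^ 2)⁻¹ ≤ 625 / 144 := by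
    rw [← inv_pow]
    calc (‖e‖⁻¹) ^ 2 ≤ (25 / 12) ^ 2 := by gcongr
      _ = _ := by norm_num
  have q1 : ∀ x y : ℝ, |x * y / ‖e‖ ^ 2| ≤ |x| * |y| * (‖e‖ ^ 2)⁻¹ := by
    intro x y
    rw [abs_div, abs_mul, abs_of_pos (by positivity : 0 < ‖e‖ ^ 2), div_eq_mul_inv]
  have q2 : ∀ x y : ℝ, |y| ≤ ‖e‖ → |x * y / ‖e‖ ^ 2| ≤ |x| * (25 / 12) := by
    intro x y hy
    refine (q1 x y).trans ?_
    calc |x| * |y| * (‖e‖ ^ 2)⁻¹ ≤ |x| * ‖e‖ * (‖e‖ ^ 2)⁻¹ := by gcongr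
      _ = |x| * ‖e‖⁻¹ := by field_simp
      _ ≤ _ := by gcongr
  constructor
  · rw [Complex.div_re, hN]
    refine (abs_add_le _ _).trans ?_
    have b1 := q2 δ.re e.re hre
    have b2 := q1 δ.im e.im
    have b3 : |δ.im| * |e.im| * (‖e‖ ^ 2)⁻¹ ≤ η / (32 * M) * (3 * (M * η)) * (625 / 144) := by
      have := h.2
      gcongr
    have b4 : η / (32 * M) * (3 * (M * η)) * (625 / 144) = η ^ 2 * (1875 / 4608) := by
      field_simp; norm_num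
    have b5 : |δ.re| * (25 / 12) ≤ η ^ 2 / 16 * (25 / 12) := by
      have := h.1
      gcongr
    nlinarith
  · rw [Complex.div_im, hN]
    refine (abs_sub _ _).trans ?_
    have b1 := q2 δ.im e.re hre
    have b2 := q2 δ.re e.im him2
    have b3 := (h.norm_le hη hη1 hM).2
    have b4 := h.1
    nlinarith

theorem norm_le_add_abs (z : ℂ) : ‖z‖ ≤ |z.re| + |z.im| := Complex.norm_le_abs_re_add_abs_im z

theorem sq_low {x t : ℝ} (ht0 : 0 ≤ t) (ht : t ≤ 1 / 2) (hx : 1 / 2 - t ≤ x) : 1 / 4 - t ≤ x ^ 2 := by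
  nlinarith

theorem sq_low2 {x a η : ℝ} (hη : 0 < η) (ha : 0 ≤ a) (hx : 0 ≤ x) (h : (a - 33 / 16) * η ≤ x) :
    (a ^ 2 / 2 - 5) * η ^ 2 ≤ x ^ 2 := by
  rcases le_or_gt (33 / 16) a with h1 | h1
  · have h2 : ((a - 33 / 16) * η) ^ 2 ≤ x ^ 2 := by
      have : 0 ≤ (a - 33 / 16) * η := mul_nonneg (by linarith) hη.le
      gcongr
    have h3 : a ^ 2 / 2 - 5 ≤ (a - 33 / 16) ^ 2 := by nlinarith [sq_nonneg (a - 33 / 8)]
    calc (a ^ 2 / 2 - 5) * η ^ 2 ≤ (a - 33 / 16) ^ 2 * η ^ 2 := by gcongr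
      _ = ((a - 33 / 16) * η) ^ 2 := by ring
      _ ≤ _ := h2
  · have h4 : a ^ 2 ≤ (33 / 16) ^ 2 := by gcongr
    have h3 : a ^ 2 / 2 - 5 ≤ 0 := by norm_num at h4; linarith
    have : (a ^ 2 / 2 - 5) * η ^ 2 ≤ 0 := mul_nonpos_of_nonpos_of_nonneg h3 (by positivity)
    linarith [sq_nonneg x]

/-- the conclusions for one child, in normalised coordinates -/
structure ChildOK (η : ℝ) (M : ℕ) (e : ℂ) : Prop where
  lo : 48 / 100 ≤ ‖e‖
  hi : ‖e‖ ≤ 4 / 5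
  im : |e.im| ≤ 3 * (M * η)
  gain : 1 + (M * η) ^ 2 / 2 - 58 * M * η ^ 2 ≤ 4 * ‖e‖ ^ 2

theorem norm_sq_re_im (z : ℂ) : ‖z‖ ^ 2 = z.re ^ 2 + z.im ^ 2 := by
  rw [Complex.sq_norm, Complex.normSq_apply]; ring

/-- a child in the first case -/
theorem child_case1 {η : ℝ} (hη : 0 < η) (hη1 : η ≤ 1 / 100) {M : ℕ} (hM : 1 ≤ M)
    (hMη : M * η ≤ 78 / 100) {e f : ℂ} (hef : ‖e - f‖ ≤ η / 15) (hre : |(e - f).re| ≤ η ^ 2 / 8)
    (him : |(e - f).im| ≤ η / 16) (hf1 : 49 / 100 ≤ ‖f‖) (hf2 : ‖f‖ ≤ 76 / 100)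
    (hfr : |f.re - 1 / 2| ≤ 38 / 5 * M * η ^ 2) (hfi : |f.im| ≤ (M + 1) * η)
    (hfi2 : (M - 2) * η ≤ |f.im|) : ChildOK η M e := by
  have hM' : (1 : ℝ) ≤ M := by exact_mod_cast hM
  have n1 : ‖f‖ ≤ ‖e‖ + ‖e - f‖ := by
    calc ‖f‖ = ‖e - (e - f)‖ := by ring_nf
      _ ≤ _ := norm_sub_le _ _
  have n2 : ‖e‖ ≤ ‖f‖ + ‖e - f‖ := by
    calc ‖e‖ = ‖f + (e - f)‖ := by ring_nf
      _ ≤ _ := norm_add_le _ _
  have r1 : e.re = f.re + (e - f).re := by simp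
  have r2 : e.im = f.im + (e - f).im := by simp
  have i1 : |e.im| ≤ |f.im| + |(e - f).im| := by rw [r2]; exact abs_add_le _ _
  have i2 : |f.im| ≤ |e.im| + |(e - f).im| := by
    have : f.im = e.im - (e - f).im := by rw [r2]; ring
    rw [this]; exact abs_sub _ _
  have hMη0 : η ≤ M * η := by nlinarith
  refine ⟨by linarith, by linarith, by nlinarith, ?_⟩
  have hMη2 : (M : ℝ) * η ^ 2 ≤ 78 / 100 * (1 / 100) := by
    calc (M : ℝ) * η ^ 2 = (M * η) * η := by ring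
      _ ≤ 78 / 100 * (1 / 100) := by gcongr
  have hη2 : η ^ 2 ≤ M * η ^ 2 := by nlinarith [sq_nonneg η]
  have s1 : 1 / 4 - 39 / 5 * M * η ^ 2 ≤ e.re ^ 2 := by
    apply sq_low (by positivity) (by linarith)
    rw [abs_le] at hfr hre
    rw [r1]
    linarith [hfr.1, hre.1]
  have s2 := sq_low2 (x := |e.im|) (a := M) hη (by linarith) (abs_nonneg _) (by
    have : (M - 33 / 16 : ℝ) * η = (M - 2) * η - η / 16 := by ring
    rw [this]; linarith)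
  rw [sq_abs] at s2
  rw [norm_sq_re_im]
  have e1 : (M * η) ^ 2 = M ^ 2 * η ^ 2 := by ring
  have e2 : ((M : ℝ) ^ 2 / 2 - 5) * η ^ 2 = M ^ 2 * η ^ 2 / 2 - 5 * η ^ 2 := by ring
  rw [e1]
  rw [e2] at s2
  have h3 : 0 ≤ (M : ℝ) ^ 2 * η ^ 2 := by positivity
  have h4 : 0 ≤ η ^ 2 := by positivity
  linarith

/-- a child in the second case -/
theorem child_case2 {η : ℝ} (hη : 0 < η) (hη1 : η ≤ 1 / 100) {M : ℕ} (hM1 : 1 ≤ M * η)
    (hM2 : M * η ≤ 1 + η) {e f : ℂ} (hef : ‖e - f‖ ≤ η / 15)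
    (hf1 : 749 / 1000 ≤ ‖f‖) (hf2 : ‖f‖ ≤ 76 / 100) : ChildOK η M e := by
  have n1 : ‖f‖ ≤ ‖e‖ + ‖e - f‖ := by
    calc ‖f‖ = ‖e - (e - f)‖ := by ring_nf
      _ ≤ _ := norm_sub_le _ _
  have n2 : ‖e‖ ≤ ‖f‖ + ‖e - f‖ := by
    calc ‖e‖ = ‖f + (e - f)‖ := by ring_nf
      _ ≤ _ := norm_add_le _ _
  have i1 := Complex.abs_im_le_norm e
  refine ⟨by linarith, by linarith, by linarith, ?_⟩
  have h1 : (M * η) ^ 2 ≤ (101 / 100) ^ 2 := by gcongr; linarith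
  have h2 : (748 / 1000 : ℝ) ^ 2 ≤ ‖e‖ ^ 2 := by gcongr; linarith
  have h3 : 0 ≤ 58 * (M : ℝ) * η ^ 2 := by positivity
  norm_num at h1 h2
  linarith

end Pool.Agent.H964
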