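import Pool.Agent.H964.SL.Geo2

/-!
# Geometry of paths: existence of the children
-/

set_option autoImplicit false

namespace Pool.Agent.H964

/-- the conclusions in normalised coordinates -/
structure NormOK (y : ℕ → ℂ) (η : ℝ) (M : ℕ) (i j k₁ k₂ : ℕ) (a₁ a₂ a₃ a₄ : ℂ) : Prop where
  h1 : i < k₁
  h2 : k₁ ≤ k₂
  h3 : k₂ < j
  c1 : Cl η M (y i - a₁)
  c2 : Cl η M (y k₁ - a₂)
  c3 : Cl η M (y k₂ - a₃)
  c4 : Cl η M (y j - a₄)
  e1 : ChildOK η M (a₂ - a₁)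
  e2 : ChildOK η M (a₄ - a₃)
  d1 : ‖a₁‖ ≤ 2 * (M * η)
  d2 : ‖a₂ - 1 / 2‖ ≤ 2 * (M * η)
  d3 : ‖a₃ - 1 / 2‖ ≤ 2 * (M * η)
  d4 : ‖a₄ - 1‖ ≤ 2 * (M * η)
  b1 : ‖a₁‖ ≤ 1
  b3 : ‖a₃‖ ≤ 2

/-- the bisector: real computation -/
theorem bisector {α β α' β' w₁ w₂ A B η M : ℝ} (hη : 0 < η) (hη1 : η ≤ 1 / 100) (hM : 1 ≤ M)
    (hα : |α| ≤ η ^ 2) (hβ : |β| ≤ η) (hα' : |α' - 1| ≤ η ^ 2) (hβ' : |β'| ≤ η)
    (hw : |w₂| ≤ M * η) (hA : A ^ 2 = (w₁ - α) ^ 2 + (w₂ - β) ^ 2)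
    (hB : B ^ 2 = (w₁ - α') ^ 2 + (w₂ - β') ^ 2) (hAB : B ≤ A) (hAB2 : A ≤ B + 2 * η ^ 2)
    (hB0 : 0 ≤ B) (hA1 : A ≤ 76 / 100) : |w₁ - 1 / 2| ≤ 33 / 5 * (M * η ^ 2) := by
  have hη20 : 0 < η ^ 2 := by positivity
  have h1 : 0 ≤ A ^ 2 - B ^ 2 := by
    have : B ^ 2 ≤ A ^ 2 := by gcongr
    linarith
  have h2 : A ^ 2 - B ^ 2 ≤ 304 / 100 * η ^ 2 := by
    have e : A ^ 2 - B ^ 2 = (A - B) * (A + B) := by ring
    rw [e]
    calc (A - B) * (A + B) ≤ (2 * η ^ 2) * (152 / 100) := by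
          apply mul_le_mul (by linarith) (by linarith) (by linarith) (by positivity)
      _ = _ := by ring
  have h3 : A ^ 2 - B ^ 2 = (α' - α) * (2 * w₁ - α - α') + (β' - β) * (2 * w₂ - β - β') := by
    rw [hA, hB]; ring
  have h4 : |(β' - β) * (2 * w₂ - β - β')| ≤ 2 * η * (2 * (M * η) + 2 * η) := by
    rw [abs_mul]
    have a1 : |β' - β| ≤ 2 * η := by
      rw [abs_le] at hβ hβ' ⊢
      constructor <;> linarith [hβ.1, hβ.2, hβ'.1, hβ'.2]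
    have a2 : |2 * w₂ - β - β'| ≤ 2 * (M * η) + 2 * η := by
      rw [abs_le] at hβ hβ' hw ⊢
      constructor <;> linarith [hβ.1, hβ.2, hβ'.1, hβ'.2, hw.1, hw.2]
    gcongr
  have hη2 : η ^ 2 ≤ M * η ^ 2 := by nlinarith
  obtain ⟨X, hX⟩ : ∃ X, X = M * η ^ 2 := ⟨_, rfl⟩
  have e7 : 2 * η * (2 * (M * η) + 2 * η) = 4 * X + 4 * η ^ 2 := by rw [hX]; ring
  rw [e7] at h4
  rw [← hX] at hη2 ⊢
  have h5 : |(α' - α) * (2 * w₁ - α - α')| ≤ 1104 / 100 * X := by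
    have e : (α' - α) * (2 * w₁ - α - α') = (A ^ 2 - B ^ 2) - (β' - β) * (2 * w₂ - β - β') := by
      rw [h3]; ring
    rw [e]
    have h6 : |A ^ 2 - B ^ 2| ≤ 304 / 100 * η ^ 2 := by rw [abs_of_nonneg h1]; exact h2
    refine (abs_sub _ _).trans ?_
    linarith
  have hα2 : η ^ 2 ≤ 1 / 10000 := by
    calc η ^ 2 ≤ (1 / 100) ^ 2 := by gcongr
      _ = _ := by norm_num
  have h8 : 9998 / 10000 ≤ α' - α := by
    rw [abs_le] at hα hα'
    linarith [hα.2, hα'.1]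
  have hXX : |2 * w₁ - α - α'| ≤ 111 / 10 * X := by
    rw [abs_mul, abs_of_pos (by linarith : 0 < α' - α)] at h5
    have h9 : 9998 / 10000 * |2 * w₁ - α - α'| ≤ (α' - α) * |2 * w₁ - α - α'| := by
      apply mul_le_mul_of_nonneg_right h8 (abs_nonneg _)
    have : 0 ≤ X := by linarith
    linarith
  rw [abs_le] at hα hα' hXX ⊢
  constructor <;> linarith [hα.1, hα.2, hα'.1, hα'.2, hXX.1, hXX.2]

theorem class_exists {η b : ℝ} (hη : 0 < η) (hb : 0 ≤ b) {Mx : ℕ} (hMx : 1 ≤ Mx * η) (hb1 : b ≤ 1) :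
    ∃ M : ℕ, 1 ≤ M ∧ M ≤ Mx ∧ b ≤ M * η ∧ (M - 1) * η ≤ b := by
  have hMx0 : 1 ≤ Mx := by
    by_contra hc
    have : Mx = 0 := by omega
    rw [this] at hMx
    norm_num at hMx
  refine ⟨max 1 ⌈b / η⌉₊, le_max_left _ _, ?_, ?_, ?_⟩
  · apply max_le hMx0
    rw [Nat.ceil_le, div_le_iff₀ hη]
    linarith
  · have h1 := Nat.le_ceil (b / η)
    rw [div_le_iff₀ hη] at h1
    refine h1.trans ?_
    push_cast
    gcongr
    exact le_max_right _ _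
  · rcases le_or_gt ⌈b / η⌉₊ 1 with h | h
    · rw [max_eq_left h]
      simpa using hb
    · rw [max_eq_right h.le]
      have h1 := Nat.ceil_lt_add_one (show 0 ≤ b / η by positivity)
      have h2 : (⌈b / η⌉₊ : ℝ) - 1 ≤ b / η := by linarith
      rwa [le_div_iff₀ hη] at h2

theorem children_norm {y : ℕ → ℂ} {η : ℝ} (hη : 0 < η) (hη1 : η ≤ 1 / 100) {i j : ℕ} (hij : i < j)
    (hstep : ∀ k, i ≤ k → k < j → ‖y (k + 1) - y k‖ ≤ η ^ 2)
    (hi : |(y i).re| ≤ η ^ 2 ∧ |(y i).im| ≤ η) (hj : |(y j - 1).re| ≤ η ^ 2 ∧ |(y j - 1).im| ≤ η)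
    {Mx : ℕ} (hMx : 1 ≤ Mx * η) (hMx2 : Mx * η ≤ 1 + η) :
    ∃ M : ℕ, 1 ≤ M ∧ M ≤ Mx ∧ ∃ n₁ ∈ Bx (65 * M ^ 2), ∃ n₂ ∈ Bx (65 * M ^ 2), ∃ n₃ ∈ Bx (65 * M ^ 2),
      ∃ n₄ ∈ Bx (65 * M ^ 2), ∃ k₁ k₂, NormOK y η M i j k₁ k₂ (gq η M 0 n₁) (gq η M (1 / 2) n₂)
        (gq η M (1 / 2) n₃) (gq η M 1 n₄) := by
  have hη2 : η ^ 2 ≤ 1 / 100 * η := by nlinarith
  have hη3 : η ^ 2 ≤ 1 / 10000 := by
    calc η ^ 2 ≤ (1 / 100) ^ 2 := by gcongr
      _ = _ := by norm_num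
  have hη20 : 0 < η ^ 2 := by positivity
  have ni : ‖y i‖ ≤ 101 / 100 * η := by
    refine (norm_le_add_abs _).trans ?_
    linarith [hi.1, hi.2]
  have nj : ‖y j - 1‖ ≤ 101 / 100 * η := by
    refine (norm_le_add_abs _).trans ?_
    linarith [hj.1, hj.2]
  simp only [Complex.sub_re, Complex.sub_im, Complex.one_re, Complex.one_im, sub_zero] at hj
  set ρ := ‖y i - y j‖ with hρ
  have hρ1 : 999 / 1000 ≤ ρ := by
    have h1 := Complex.abs_re_le_norm (y i - y j)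
    rw [← hρ, Complex.sub_re] at h1
    have h2 : 999 / 1000 ≤ |(y i).re - (y j).re| := by
      have a := (abs_le.1 hi.1)
      have b := (abs_le.1 hj.1)
      rw [abs_sub_comm]
      refine le_trans ?_ (le_abs_self _)
      linarith [a.2, b.1]
    linarith
  have hρ2 : ρ ≤ 1001 / 1000 := by
    have h1 : ρ ^ 2 ≤ (1001 / 1000) ^ 2 := by
      rw [hρ, norm_sq_re_im, Complex.sub_re, Complex.sub_im]
      have a := (abs_le.1 hi.1)
      have b := (abs_le.1 hj.1)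
      have c := (abs_le.1 hi.2)
      have d := (abs_le.1 hj.2)
      have h2 : ((y i).re - (y j).re) ^ 2 ≤ (10002 / 10000) ^ 2 := by
        apply sq_le_sq'
        · linarith [a.1, b.2]
        · linarith [a.2, b.1]
      have h3 : ((y i).im - (y j).im) ^ 2 ≤ (2 * η) ^ 2 := by
        apply sq_le_sq'
        · linarith [c.1, d.2]
        · linarith [c.2, d.1]
      have h4 : (2 * η) ^ 2 = 4 * η ^ 2 := by ring
      rw [h4] at h3
      norm_num at h2 ⊢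
      linarith
    exact le_of_sq_le_sq h1 (by norm_num)
  -- the approximations
  have diff : ∀ {M : ℕ}, 1 ≤ M → ∀ p q a b : ℂ, Cl η M (p - a) → Cl η M (q - b) →
      ‖(b - a) - (q - p)‖ ≤ η / 15 ∧ |((b - a) - (q - p)).re| ≤ η ^ 2 / 8 ∧
      |((b - a) - (q - p)).im| ≤ η / 16 := by
    intro M hM p q a b h1 h2
    have e : (b - a) - (q - p) = (p - a) - (q - b) := by ring
    have n1 := h1.norm_le hη hη1 hM
    have n2 := h2.norm_le hη hη1 hM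
    rw [e]
    refine ⟨(norm_sub_le _ _).trans (by linarith [n1.1, n2.1]), ?_, ?_⟩
    · rw [Complex.sub_re]
      exact (abs_sub _ _).trans (by linarith [h1.1, h2.1])
    · rw [Complex.sub_im]
      exact (abs_sub _ _).trans (by linarith [n1.2, n2.2])
  have half_re : ∀ z : ℂ, (z - 1 / 2).re = z.re - 1 / 2 := by
    intro z
    simp
  have half_im : ∀ z : ℂ, (z - 1 / 2).im = z.im := by
    intro z
    simp
  rcases core2 hη20 hij hstep (by rw [← hρ]; linarith) with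
    ⟨k, g1, g2, g3, g4, g5⟩ | ⟨k₁, k₂, g1, g2, g3, g4, g5, g6, g7⟩
  · -- first case
    rw [← hρ] at g5
    obtain ⟨A, hA⟩ : ∃ A, A = ‖y k - y i‖ := ⟨_, rfl⟩
    obtain ⟨B, hB⟩ : ∃ B, B = ‖y k - y j‖ := ⟨_, rfl⟩
    rw [← hA, ← hB] at g3 g4
    rw [← hA] at g5
    have hB0 : 0 ≤ B := by rw [hB]; exact norm_nonneg _
    have hsum : ρ ≤ A + B := by
      calc ρ = ‖(y k - y j) - (y k - y i)‖ := by rw [hρ]; ring_nf
        _ ≤ B + A := by rw [hA, hB]; exact norm_sub_le _ _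
        _ = _ := by ring
    have hw2 : |(y k).im| ≤ 77 / 100 := by
      have h1 : |(y k - y i).im| ≤ A := by rw [hA]; exact Complex.abs_im_le_norm _
      rw [Complex.sub_im] at h1
      have h2 : |(y k).im| ≤ |(y k).im - (y i).im| + |(y i).im| := by
        calc |(y k).im| = |((y k).im - (y i).im) + (y i).im| := by ring_nf
          _ ≤ _ := abs_add_le _ _
      linarith [hi.2]
    obtain ⟨M, hM1, hM2, hM3, hM4⟩ := class_exists (b := |(y k).im|) hη (abs_nonneg _) hMx (by linarith)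
    have hM' : (1 : ℝ) ≤ M := by exact_mod_cast hM1
    have hMη : M * η ≤ 78 / 100 := by
      have : (M : ℝ) * η = (M - 1) * η + η := by ring
      linarith
    have hMη0 : η ≤ M * η := by nlinarith
    have hMη2 : η ^ 2 ≤ M * η ^ 2 := by nlinarith
    have hX : M * η ^ 2 ≤ 1 / 100 * (M * η) := by nlinarith
    have hbis := bisector (α := (y i).re) (β := (y i).im) (α' := (y j).re) (β' := (y j).im)
      (w₁ := (y k).re) (w₂ := (y k).im) (A := A) (B := B) (M := M) hη hη1 hM' hi.1 hi.2 hj.1 hj.2 hM3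
      (by rw [hA, norm_sq_re_im, Complex.sub_re, Complex.sub_im])
      (by rw [hB, norm_sq_re_im, Complex.sub_re, Complex.sub_im]) g3 g4 hB0 (by linarith)
    have hsqM : M * η ^ 2 ≤ (M * η) ^ 2 := by
      calc (M : ℝ) * η ^ 2 = 1 * (M * η ^ 2) := by ring
        _ ≤ M * (M * η ^ 2) := by gcongr
        _ = _ := by ring
    obtain ⟨n₁, m1, c1⟩ := exists_gq hη hM1 (z₀ := 0) (w := y i)
      (by rw [sub_zero]; linarith [hi.1]) (by rw [sub_zero]; linarith [hi.2])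
    obtain ⟨n₂, m2, c2⟩ := exists_gq hη hM1 (z₀ := 1 / 2) (w := y k)
      (by rw [half_re]; linarith) (by rw [half_im]; linarith)
    obtain ⟨n₄, m4, c4⟩ := exists_gq hη hM1 (z₀ := 1) (w := y j)
      (by rw [Complex.sub_re, Complex.one_re]; linarith [hj.1])
      (by rw [Complex.sub_im, Complex.one_im, sub_zero]; linarith [hj.2])
    have d12 := diff hM1 (y i) (y k) _ _ c1 c2
    have d34 := diff hM1 (y k) (y j) _ _ c2 c4
    have q1 := (c1.norm_le hη hη1 hM1).1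
    have q2 := (c2.norm_le hη hη1 hM1).1
    have q4 := (c4.norm_le hη hη1 hM1).1
    have hk2 : ‖y k - 1 / 2‖ ≤ 108 / 100 * (M * η) := by
      refine (norm_le_add_abs _).trans ?_
      rw [half_re, half_im]
      linarith
    refine ⟨M, hM1, hM2, n₁, m1, n₂, m2, n₂, m2, n₄, m4, k, k, g1, le_rfl, g2, c1, c2, c2, c4, ?_, ?_,
      ?_, ?_, ?_, ?_, ?_, ?_⟩
    · apply child_case1 hη hη1 hM1 hMη d12.1 d12.2.1 d12.2.2
      · rw [← hA]; linarith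
      · rw [← hA]; linarith
      · rw [Complex.sub_re]
        have e : (y k).re - (y i).re - 1 / 2 = ((y k).re - 1 / 2) - (y i).re := by ring
        rw [e]
        refine (abs_sub _ _).trans ?_
        linarith [hi.1]
      · rw [Complex.sub_im]
        refine (abs_sub _ _).trans ?_
        linarith [hi.2]
      · rw [Complex.sub_im]
        have e : |(y k).im| ≤ |(y k).im - (y i).im| + |(y i).im| := by
          calc |(y k).im| = |((y k).im - (y i).im) + (y i).im| := by ring_nf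
            _ ≤ _ := abs_add_le _ _
        linarith [hi.2]
    · apply child_case1 hη hη1 hM1 hMη d34.1 d34.2.1 d34.2.2
      · rw [norm_sub_rev, ← hB]; linarith
      · rw [norm_sub_rev, ← hB]; linarith
      · rw [Complex.sub_re]
        have e : (y j).re - (y k).re - 1 / 2 = ((y j).re - 1) - ((y k).re - 1 / 2) := by ring
        rw [e]
        refine (abs_sub _ _).trans ?_
        linarith [hj.1]
      · rw [Complex.sub_im]
        refine (abs_sub _ _).trans ?_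
        linarith [hj.2]
      · rw [Complex.sub_im]
        have e : |(y k).im| ≤ |(y j).im - (y k).im| + |(y j).im| := by
          calc |(y k).im| = |(y j).im - ((y j).im - (y k).im)| := by ring_nf
            _ ≤ |(y j).im| + |(y j).im - (y k).im| := abs_sub _ _
            _ = _ := by ring
        linarith [hj.2]
    · calc ‖gq η M 0 n₁‖ = ‖y i - (y i - gq η M 0 n₁)‖ := by ring_nf
        _ ≤ ‖y i‖ + ‖y i - gq η M 0 n₁‖ := norm_sub_le _ _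
        _ ≤ _ := by linarith
    · calc ‖gq η M (1 / 2) n₂ - 1 / 2‖ = ‖(y k - 1 / 2) - (y k - gq η M (1 / 2) n₂)‖ := by ring_nf
        _ ≤ ‖y k - 1 / 2‖ + ‖y k - gq η M (1 / 2) n₂‖ := norm_sub_le _ _
        _ ≤ _ := by linarith
    · calc ‖gq η M (1 / 2) n₂ - 1 / 2‖ = ‖(y k - 1 / 2) - (y k - gq η M (1 / 2) n₂)‖ := by ring_nf
        _ ≤ ‖y k - 1 / 2‖ + ‖y k - gq η M (1 / 2) n₂‖ := norm_sub_le _ _
        _ ≤ _ := by linarith
    · calc ‖gq η M 1 n₄ - 1‖ = ‖(y j - 1) - (y j - gq η M 1 n₄)‖ := by ring_nf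
        _ ≤ ‖y j - 1‖ + ‖y j - gq η M 1 n₄‖ := norm_sub_le _ _
        _ ≤ _ := by linarith
    · calc ‖gq η M 0 n₁‖ = ‖y i - (y i - gq η M 0 n₁)‖ := by ring_nf
        _ ≤ ‖y i‖ + ‖y i - gq η M 0 n₁‖ := norm_sub_le _ _
        _ ≤ _ := by linarith
    · have hh : ‖(1 / 2 : ℂ)‖ = 1 / 2 := by simp
      calc ‖gq η M (1 / 2) n₂‖ = ‖(y k - 1 / 2) - (y k - gq η M (1 / 2) n₂) + 1 / 2‖ := by ring_nf
        _ ≤ ‖(y k - 1 / 2) - (y k - gq η M (1 / 2) n₂)‖ + ‖(1 / 2 : ℂ)‖ := norm_add_le _ _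
        _ ≤ ‖y k - 1 / 2‖ + ‖y k - gq η M (1 / 2) n₂‖ + ‖(1 / 2 : ℂ)‖ := by
            gcongr; exact norm_sub_le _ _
        _ ≤ _ := by rw [hh]; linarith
  · -- second case
    rw [← hρ] at g4 g5 g6 g7
    have hMx0 : 1 ≤ Mx := by
      by_contra hc
      have : Mx = 0 := by omega
      rw [this] at hMx
      norm_num at hMx
    have hsq : 1 ≤ (Mx * η) ^ 2 := one_le_pow₀ hMx
    have hh : ‖(1 / 2 : ℂ)‖ = 1 / 2 := by simp
    have f1 : ‖y k₁ - y i‖ = ‖y i - y k₁‖ := norm_sub_rev _ _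
    have hk1 : ‖y k₁ - 1 / 2‖ ≤ 128 / 100 := by
      calc ‖y k₁ - 1 / 2‖ = ‖(y k₁ - y i) + y i - 1 / 2‖ := by ring_nf
        _ ≤ ‖(y k₁ - y i) + y i‖ + ‖(1 / 2 : ℂ)‖ := norm_sub_le _ _
        _ ≤ ‖y k₁ - y i‖ + ‖y i‖ + ‖(1 / 2 : ℂ)‖ := by gcongr; exact norm_add_le _ _
        _ ≤ _ := by rw [hh, f1]; linarith
    have hk2 : ‖y k₂ - 1 / 2‖ ≤ 128 / 100 := by
      calc ‖y k₂ - 1 / 2‖ = ‖(y k₂ - y j) + (y j - 1) + 1 / 2‖ := by ring_nf
        _ ≤ ‖(y k₂ - y j) + (y j - 1)‖ + ‖(1 / 2 : ℂ)‖ := norm_add_le _ _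
        _ ≤ ‖y k₂ - y j‖ + ‖y j - 1‖ + ‖(1 / 2 : ℂ)‖ := by gcongr; exact norm_add_le _ _
        _ ≤ _ := by rw [hh]; linarith
    obtain ⟨n₁, m1, c1⟩ := exists_gq hη hMx0 (z₀ := 0) (w := y i)
      (by rw [sub_zero]; linarith [hi.1]) (by rw [sub_zero]; linarith [hi.2])
    obtain ⟨n₂, m2, c2⟩ := exists_gq hη hMx0 (z₀ := 1 / 2) (w := y k₁)
      ((Complex.abs_re_le_norm _).trans (by linarith)) ((Complex.abs_im_le_norm _).trans (by linarith))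
    obtain ⟨n₃, m3, c3⟩ := exists_gq hη hMx0 (z₀ := 1 / 2) (w := y k₂)
      ((Complex.abs_re_le_norm _).trans (by linarith)) ((Complex.abs_im_le_norm _).trans (by linarith))
    obtain ⟨n₄, m4, c4⟩ := exists_gq hη hMx0 (z₀ := 1) (w := y j)
      ((Complex.abs_re_le_norm _).trans (by linarith)) ((Complex.abs_im_le_norm _).trans (by linarith))
    have d12 := diff hMx0 (y i) (y k₁) _ _ c1 c2
    have d34 := diff hMx0 (y k₂) (y j) _ _ c3 c4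
    have q1 := (c1.norm_le hη hη1 hMx0).1
    have q2 := (c2.norm_le hη hη1 hMx0).1
    have q3 := (c3.norm_le hη hη1 hMx0).1
    have q4 := (c4.norm_le hη hη1 hMx0).1
    refine ⟨Mx, hMx0, le_rfl, n₁, m1, n₂, m2, n₃, m3, n₄, m4, k₁, k₂, g1, g2, g3, c1, c2, c3, c4, ?_, ?_,
      ?_, ?_, ?_, ?_, ?_, ?_⟩
    · apply child_case2 hη hη1 hMx hMx2 d12.1
      · rw [f1]; linarith
      · rw [f1]; linarith
    · apply child_case2 hη hη1 hMx hMx2 d34.1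
      · rw [norm_sub_rev]; linarith
      · rw [norm_sub_rev]; linarith
    · calc ‖gq η Mx 0 n₁‖ = ‖y i - (y i - gq η Mx 0 n₁)‖ := by ring_nf
        _ ≤ ‖y i‖ + ‖y i - gq η Mx 0 n₁‖ := norm_sub_le _ _
        _ ≤ _ := by linarith
    · calc ‖gq η Mx (1 / 2) n₂ - 1 / 2‖ = ‖(y k₁ - 1 / 2) - (y k₁ - gq η Mx (1 / 2) n₂)‖ := by ring_nf
        _ ≤ ‖y k₁ - 1 / 2‖ + ‖y k₁ - gq η Mx (1 / 2) n₂‖ := norm_sub_le _ _
        _ ≤ _ := by linarith
    · calc ‖gq η Mx (1 / 2) n₃ - 1 / 2‖ = ‖(y k₂ - 1 / 2) - (y k₂ - gq η Mx (1 / 2) n₃)‖ := by ring_nf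
        _ ≤ ‖y k₂ - 1 / 2‖ + ‖y k₂ - gq η Mx (1 / 2) n₃‖ := norm_sub_le _ _
        _ ≤ _ := by linarith
    · calc ‖gq η Mx 1 n₄ - 1‖ = ‖(y j - 1) - (y j - gq η Mx 1 n₄)‖ := by ring_nf
        _ ≤ ‖y j - 1‖ + ‖y j - gq η Mx 1 n₄‖ := norm_sub_le _ _
        _ ≤ _ := by linarith
    · calc ‖gq η Mx 0 n₁‖ = ‖y i - (y i - gq η Mx 0 n₁)‖ := by ring_nf
        _ ≤ ‖y i‖ + ‖y i - gq η Mx 0 n₁‖ := norm_sub_le _ _
        _ ≤ _ := by linarith
    · calc ‖gq η Mx (1 / 2) n₃‖ = ‖(y k₂ - 1 / 2) - (y k₂ - gq η Mx (1 / 2) n₃) + 1 / 2‖ := by ring_nf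
        _ ≤ ‖(y k₂ - 1 / 2) - (y k₂ - gq η Mx (1 / 2) n₃)‖ + ‖(1 / 2 : ℂ)‖ := norm_add_le _ _
        _ ≤ ‖y k₂ - 1 / 2‖ + ‖y k₂ - gq η Mx (1 / 2) n₃‖ + ‖(1 / 2 : ℂ)‖ := by
            gcongr; exact norm_sub_le _ _
        _ ≤ _ := by rw [hh]; linarith

end Pool.Agent.H964
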