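import Pool.Agent.H964.LF.Seg

/-!
# The potential of a segment: Lipschitz bounds without logarithm
-/

set_option autoImplicit false

namespace Pool.Agent.H964

open MeasureTheory ProbabilityTheory Real Filter Topology
open Pool.Agent.Y980

theorem circleAverage_trans (f : ℂ → ℝ) (z : ℂ) (r : ℝ) :
    circleAverage f z r = circleAverage (fun q => f (q + z)) 0 r := by
  rw [circleAverage_def, circleAverage_def]
  congr 2
  ext θ
  congr 1
  simp only [circleMap]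
  ring

/-- the covariance as a function of the difference -/
noncomputable def gA (ε : ℝ) (p : ℂ) : ℝ := circleAverage (fun q => log (max ε ‖q + p‖)) 0 ε

theorem cA_eq_gA (ε : ℝ) (z w : ℂ) : cA ε z ε w = gA ε (z - w) := by
  unfold cA gA
  rw [circleAverage_trans]
  congr 1
  ext q
  congr 3
  ring

theorem continuous_logmax' {ε : ℝ} (hε : 0 < ε) (p : ℂ) :
    Continuous fun q : ℂ => log (max ε ‖q + p‖) := by
  apply Continuous.log
  · fun_prop
  · intro x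
    exact (lt_max_of_lt_left hε).ne'

theorem gA_diff_le {ε B : ℝ} (hε : 0 < ε) {p p' : ℂ}
    (h : ∀ q : ℂ, ‖q‖ = ε → |log (max ε ‖q + p‖) - log (max ε ‖q + p'‖)| ≤ B) :
    |gA ε p - gA ε p'| ≤ B := by
  have e : gA ε p - gA ε p' =
      circleAverage (fun q => log (max ε ‖q + p‖) - log (max ε ‖q + p'‖)) 0 ε := by
    unfold gA
    rw [circleAverage_fun_sub (ci_of_cont (continuous_logmax' hε p) _ _)
      (ci_of_cont (continuous_logmax' hε p') _ _)]
  have hc : Continuous (fun q : ℂ => log (max ε ‖q + p‖) - log (max ε ‖q + p'‖)) :=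
    (continuous_logmax' hε p).sub (continuous_logmax' hε p')
  rw [e, abs_le]
  constructor
  · apply le_avg hc
    intro q hq
    rw [mem_sphere_iff_norm, abs_of_pos hε, sub_zero] at hq
    exact (abs_le.1 (h q hq)).1
  · apply avg_le hc
    intro q hq
    rw [mem_sphere_iff_norm, abs_of_pos hε, sub_zero] at hq
    exact (abs_le.1 (h q hq)).2

/-- comparison of two logarithms -/
theorem logmax_sq_le {ε : ℝ} (hε : 0 < ε) {Q Q' : ℂ} {Δ m : ℝ} (hm : 0 < m)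
    (hΔ : |‖Q'‖ ^ 2 - ‖Q‖ ^ 2| ≤ Δ) (h1 : m ≤ (max ε ‖Q‖) ^ 2) (h2 : m ≤ (max ε ‖Q'‖) ^ 2) :
    |log (max ε ‖Q‖) - log (max ε ‖Q'‖)| ≤ Δ / (2 * m) := by
  have key : ∀ Q Q' : ℂ, |‖Q'‖ ^ 2 - ‖Q‖ ^ 2| ≤ Δ → m ≤ (max ε ‖Q‖) ^ 2 →
      log (max ε ‖Q'‖) - log (max ε ‖Q‖) ≤ Δ / (2 * m) := by
    intro Q Q' hΔ h1
    have hΔ0 : 0 ≤ Δ := (abs_nonneg _).trans hΔ
    obtain ⟨a, ha⟩ : ∃ a, a = max ε ‖Q‖ := ⟨_, rfl⟩
    obtain ⟨b, hb⟩ : ∃ b, b = max ε ‖Q'‖ := ⟨_, rfl⟩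
    rw [← ha] at h1
    rw [← ha, ← hb]
    have ha0 : 0 < a := by rw [ha]; exact lt_max_of_lt_left hε
    have hb0 : 0 < b := by rw [hb]; exact lt_max_of_lt_left hε
    have hab : b ^ 2 - a ^ 2 ≤ Δ := by
      rcases max_choice ε ‖Q'‖ with h | h
      · rw [h] at hb
        have : ε ≤ a := by rw [ha]; exact le_max_left _ _
        rw [hb]
        nlinarith
      · rw [h] at hb
        have : ‖Q‖ ≤ a := by rw [ha]; exact le_max_right _ _
        have h3 : ‖Q‖ ^ 2 ≤ a ^ 2 := by gcongr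
        rw [hb]
        linarith [(abs_le.1 hΔ).2]
    have e1 : log b - log a = 1 / 2 * log (b ^ 2 / a ^ 2) := by
      rw [log_div (by positivity) (by positivity), log_pow, log_pow]; push_cast; ring
    have e2 : log (b ^ 2 / a ^ 2) ≤ b ^ 2 / a ^ 2 - 1 := log_le_sub_one_of_pos (by positivity)
    have e3 : b ^ 2 / a ^ 2 - 1 = (b ^ 2 - a ^ 2) / a ^ 2 := by field_simp
    calc log b - log a ≤ 1 / 2 * ((b ^ 2 - a ^ 2) / a ^ 2) := by rw [e1]; linarith
      _ ≤ 1 / 2 * (Δ / m) := by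
          gcongr
      _ = _ := by ring
  rw [abs_le]
  constructor
  · have := key Q Q' hΔ h1
    linarith
  · have := key Q' Q (by rw [abs_sub_comm]; exact hΔ) h2
    linarith

theorem gA_lip {ε : ℝ} (hε : 0 < ε) (p p' : ℂ) : |gA ε p - gA ε p'| ≤ ‖p - p'‖ / ε := by
  apply gA_diff_le hε
  intro q _
  have key : ∀ p p' : ℂ, log (max ε ‖q + p‖) - log (max ε ‖q + p'‖) ≤ ‖p - p'‖ / ε := by
    intro p p'
    have ha : 0 < max ε ‖q + p‖ := lt_max_of_lt_left hε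
    have hb : 0 < max ε ‖q + p'‖ := lt_max_of_lt_left hε
    rw [← log_div ha.ne' hb.ne']
    have h1 := log_le_sub_one_of_pos (div_pos ha hb)
    have h2 : max ε ‖q + p‖ ≤ max ε ‖q + p'‖ + ‖p - p'‖ := by
      apply max_le
      · linarith [le_max_left ε ‖q + p'‖, norm_nonneg (p - p')]
      · have : ‖q + p‖ ≤ ‖q + p'‖ + ‖p - p'‖ := by
          calc ‖q + p‖ = ‖(q + p') + (p - p')‖ := by ring_nf
            _ ≤ _ := norm_add_le _ _
        linarith [le_max_right ε ‖q + p'‖]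
    have h3 : max ε ‖q + p‖ / max ε ‖q + p'‖ - 1 ≤ ‖p - p'‖ / ε := by
      have e : max ε ‖q + p‖ / max ε ‖q + p'‖ - 1 =
          (max ε ‖q + p‖ - max ε ‖q + p'‖) / max ε ‖q + p'‖ := by field_simp
      rw [e]
      calc (max ε ‖q + p‖ - max ε ‖q + p'‖) / max ε ‖q + p'‖ ≤ ‖p - p'‖ / max ε ‖q + p'‖ := by
            apply div_le_div_of_nonneg_right _ hb.le; linarith
        _ ≤ _ := by
            apply div_le_div_of_nonneg_left (norm_nonneg _) hε (le_max_left _ _)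
    linarith
  rw [abs_le]
  constructor
  · have := key p' p
    rw [norm_sub_rev] at this
    linarith
  · exact key p p'

theorem gA_continuous {ε : ℝ} (hε : 0 < ε) : Continuous (gA ε) := by
  rw [continuous_iff_continuousAt]
  intro p
  rw [ContinuousAt, tendsto_iff_dist_tendsto_zero]
  have h1 : Tendsto (fun p' : ℂ => ‖p' - p‖ / ε) (𝓝 p) (𝓝 0) := by
    have : Continuous fun p' : ℂ => ‖p' - p‖ / ε := by fun_prop
    simpa using this.tendsto p
  exact squeeze_zero (fun _ => dist_nonneg) (fun p' => by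
    rw [Real.dist_eq]; exact gA_lip hε p' p) h1

theorem gA_hold {ε : ℝ} (hε : 0 < ε) {p p' : ℂ} (hp : p ≠ 0) (hp' : p' ≠ 0) :
    |gA ε p - gA ε p'| ≤ 2 * (2 * ‖p - p'‖ / ‖p‖) ^ (1 / 2 : ℝ) + 2 * (2 * ‖p - p'‖ / ‖p'‖) ^ (1 / 2 : ℝ) := by
  have h := cA_sub_le (q := 1 / 2) hε (by norm_num) (by norm_num) (y := 0) (z := -p) (w := -p')
    (by intro h; apply hp; rw [← neg_eq_zero, ← h]) (by intro h; apply hp'; rw [← neg_eq_zero, ← h])
  rw [cA_eq_gA, cA_eq_gA] at h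
  simp only [sub_neg_eq_add, zero_add] at h
  rw [show -p + p' = -(p - p') by ring, norm_neg] at h
  refine h.trans (le_of_eq ?_)
  ring

/-- norm in rotated coordinates -/
theorem norm_sq_rot {e : ℂ} (he : ‖e‖ = 1) (p : ℂ) :
    ‖p‖ ^ 2 = (p * (starRingEnd ℂ) e).re ^ 2 + (p * (starRingEnd ℂ) e).im ^ 2 := by
  have h1 : ‖p * (starRingEnd ℂ) e‖ ^ 2 = ‖p‖ ^ 2 := by
    rw [norm_mul, RCLike.norm_conj, he, mul_one]
  rw [← h1, Complex.sq_norm, Complex.normSq_apply]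
  ring

theorem norm_sq_perp {e : ℂ} (he : ‖e‖ = 1) (p : ℂ) (y : ℝ) :
    ‖p + Complex.I * y * e‖ ^ 2 - ‖p‖ ^ 2 = y ^ 2 + 2 * y * (p * (starRingEnd ℂ) e).im := by
  have h1 : ((p + Complex.I * y * e) * (starRingEnd ℂ) e) = p * (starRingEnd ℂ) e + Complex.I * y := by
    have : e * (starRingEnd ℂ) e = 1 := by
      rw [Complex.mul_conj, Complex.normSq_eq_norm_sq, he]; norm_num
    calc (p + Complex.I * y * e) * (starRingEnd ℂ) e =
        p * (starRingEnd ℂ) e + Complex.I * y * (e * (starRingEnd ℂ) e) := by ring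
      _ = _ := by rw [this, mul_one]
  rw [norm_sq_rot he, norm_sq_rot he p, h1]
  simp
  ring

/-- small perpendicular displacement -/
theorem gA_perp {ε : ℝ} (hε : 0 < ε) {e : ℂ} (he : ‖e‖ = 1) (p : ℂ) {y : ℝ} (hy : |y| ≤ ε) :
    |gA ε (p + Complex.I * y * e) - gA ε p| ≤
      30 * |y| * ((|(p * (starRingEnd ℂ) e).im| + ε) /
        ((p * (starRingEnd ℂ) e).re ^ 2 + (|(p * (starRingEnd ℂ) e).im| + ε) ^ 2)) := by
  obtain ⟨s, hs⟩ : ∃ s, s = (p * (starRingEnd ℂ) e).re := ⟨_, rfl⟩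
  obtain ⟨Y, hY⟩ : ∃ Y, Y = (p * (starRingEnd ℂ) e).im := ⟨_, rfl⟩
  obtain ⟨A, hA⟩ : ∃ A, A = |Y| + ε := ⟨_, rfl⟩
  rw [← hs, ← hY, ← hA]
  have hY0 := abs_nonneg Y
  have hy0 := abs_nonneg y
  have hA0 : 0 < A := by rw [hA]; positivity
  have hp2 : ‖p‖ ^ 2 = s ^ 2 + Y ^ 2 := by rw [norm_sq_rot he, ← hs, ← hY]
  apply gA_diff_le hε
  intro q hq
  rw [abs_sub_comm]
  have hm : 0 < (‖p‖ ^ 2 + ε ^ 2) / 10 := by positivity
  have hΔ : |‖q + (p + Complex.I * y * e)‖ ^ 2 - ‖q + p‖ ^ 2| ≤ 3 * |y| * A := by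
    rw [show q + (p + Complex.I * y * e) = (q + p) + Complex.I * y * e by ring, norm_sq_perp he]
    have h1 : |((q + p) * (starRingEnd ℂ) e).im| ≤ ε + |Y| := by
      rw [add_mul, Complex.add_im, ← hY]
      refine (abs_add_le _ _).trans ?_
      have h2 : |(q * (starRingEnd ℂ) e).im| ≤ ε := by
        refine (Complex.abs_im_le_norm _).trans ?_
        rw [norm_mul, RCLike.norm_conj, he, mul_one, hq]
      linarith
    calc |y ^ 2 + 2 * y * ((q + p) * (starRingEnd ℂ) e).im| ≤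
        |y ^ 2| + |2 * y * ((q + p) * (starRingEnd ℂ) e).im| := abs_add_le _ _
      _ = |y| * |y| + 2 * |y| * |((q + p) * (starRingEnd ℂ) e).im| := by
          rw [abs_mul, abs_mul, abs_pow, abs_two]; ring
      _ ≤ |y| * A + 2 * |y| * A := by
          rw [hA]
          gcongr <;> linarith
      _ = _ := by ring
  have big : ∀ N : ℝ, 0 ≤ N → ε ≤ N → ‖p‖ ≤ 3 * N → (‖p‖ ^ 2 + ε ^ 2) / 10 ≤ N ^ 2 := by
    intro N hN h1 h2
    have h3 : ‖p‖ ^ 2 ≤ (3 * N) ^ 2 := by gcongr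
    have h4 : ε ^ 2 ≤ N ^ 2 := by gcongr
    linarith
  have b1 : (‖p‖ ^ 2 + ε ^ 2) / 10 ≤ (max ε ‖q + p‖) ^ 2 := by
    apply big _ (le_max_of_le_left hε.le) (le_max_left _ _)
    have h1 : ‖p‖ ≤ ‖q + p‖ + ‖q‖ := by
      calc ‖p‖ = ‖(q + p) - q‖ := by ring_nf
        _ ≤ _ := norm_sub_le _ _
    linarith [le_max_left ε ‖q + p‖, le_max_right ε ‖q + p‖]
  have b2 : (‖p‖ ^ 2 + ε ^ 2) / 10 ≤ (max ε ‖q + (p + Complex.I * y * e)‖) ^ 2 := by
    apply big _ (le_max_of_le_left hε.le) (le_max_left _ _)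
    have h1 : ‖p‖ ≤ ‖q + (p + Complex.I * y * e)‖ + ‖q‖ + |y| := by
      have e3 : ‖Complex.I * y * e‖ = |y| := by
        rw [norm_mul, norm_mul, Complex.norm_I, he, Complex.norm_real, Real.norm_eq_abs]; ring
      calc ‖p‖ = ‖(q + (p + Complex.I * y * e)) - q - Complex.I * y * e‖ := by ring_nf
        _ ≤ ‖(q + (p + Complex.I * y * e)) - q‖ + ‖Complex.I * y * e‖ := norm_sub_le _ _
        _ ≤ ‖q + (p + Complex.I * y * e)‖ + ‖q‖ + ‖Complex.I * y * e‖ := by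
            gcongr; exact norm_sub_le _ _
        _ = _ := by rw [e3]
    linarith [le_max_left ε ‖q + (p + Complex.I * y * e)‖, le_max_right ε ‖q + (p + Complex.I * y * e)‖]
  have h1 := logmax_sq_le hε hm hΔ b1 b2
  refine h1.trans ?_
  have h2 : s ^ 2 + A ^ 2 ≤ 2 * (‖p‖ ^ 2 + ε ^ 2) := by
    rw [hp2, hA]
    nlinarith [sq_nonneg (|Y| - ε), sq_abs Y, sq_nonneg s]
  have h3 : 0 < s ^ 2 + A ^ 2 := by positivity
  calc 3 * |y| * A / (2 * ((‖p‖ ^ 2 + ε ^ 2) / 10)) = 15 * |y| * A / (‖p‖ ^ 2 + ε ^ 2) := by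
        field_simp; ring
    _ ≤ 15 * |y| * A / ((s ^ 2 + A ^ 2) / 2) := by
        apply div_le_div_of_nonneg_left (by positivity) (by positivity)
        linarith
    _ = _ := by field_simp; ring

end Pool.Agent.H964
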