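import Pool.Agent.H964.SL.Perp
import Pool.Agent.H964.LF.XX

/-!
# The interaction of two segments
-/

set_option autoImplicit false

namespace Pool.Agent.H964

open MeasureTheory ProbabilityTheory Real Filter Topology
open Pool.Agent.Y980

/-- the potential of the segment `[u, v]` -/
noncomputable def Fs (ε : ℝ) (u v z : ℂ) : ℝ := ∫ τ in (0 : ℝ)..1, gA ε (z - pt u v τ)

theorem gA_pt_continuous {ε : ℝ} (hε : 0 < ε) (u v z : ℂ) :
    Continuous fun τ : ℝ => gA ε (z - pt u v τ) :=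
  (gA_continuous hε).comp (continuous_const.sub (pt_continuous u v))

theorem Fs_lip {ε : ℝ} (hε : 0 < ε) (u v z z' : ℂ) : |Fs ε u v z - Fs ε u v z'| ≤ ‖z - z'‖ / ε := by
  unfold Fs
  rw [← intervalIntegral.integral_sub ((gA_pt_continuous hε u v z).intervalIntegrable _ _)
    ((gA_pt_continuous hε u v z').intervalIntegrable _ _)]
  have : ‖∫ τ in (0 : ℝ)..1, (gA ε (z - pt u v τ) - gA ε (z' - pt u v τ))‖ ≤ ‖z - z'‖ / ε * |1 - 0| := by
    apply intervalIntegral.norm_integral_le_of_norm_le_const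
    intro τ _
    rw [Real.norm_eq_abs]
    refine (gA_lip hε _ _).trans (le_of_eq ?_)
    congr 2; ring
  simpa using this

theorem Fs_continuous {ε : ℝ} (hε : 0 < ε) (u v : ℂ) : Continuous (Fs ε u v) := by
  rw [continuous_iff_continuousAt]
  intro p
  rw [ContinuousAt, tendsto_iff_dist_tendsto_zero]
  have h1 : Tendsto (fun p' : ℂ => ‖p' - p‖ / ε) (𝓝 p) (𝓝 0) := by
    have : Continuous fun p' : ℂ => ‖p' - p‖ / ε := by fun_prop
    simpa using this.tendsto p
  exact squeeze_zero (fun _ => dist_nonneg) (fun p' => by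
    rw [Real.dist_eq]; exact Fs_lip hε u v p' p) h1

theorem poisson_continuous {A : ℝ} (hA : 0 < A) (r s : ℝ) :
    Continuous fun τ : ℝ => A / ((s - τ * r) ^ 2 + A ^ 2) := by
  apply Continuous.div (by fun_prop) (by fun_prop)
  intro τ
  positivity

theorem int_poisson {A r : ℝ} (hA : 0 < A) (hr : 0 < r) (s : ℝ) :
    ∫ τ in (0 : ℝ)..1, A / ((s - τ * r) ^ 2 + A ^ 2) ≤ π / r := by
  have hd : ∀ τ : ℝ, HasDerivAt (fun τ => r⁻¹ * arctan ((τ * r - s) / A))
      (A / ((s - τ * r) ^ 2 + A ^ 2)) τ := by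
    intro τ
    have h1 : HasDerivAt (fun τ : ℝ => (τ * r - s) / A) (r / A) τ := by
      have := (((hasDerivAt_id τ).mul_const r).sub_const s).div_const A
      simpa using this
    have h2 := (h1.arctan).const_mul r⁻¹
    refine h2.congr_deriv ?_
    have h3 : 0 < (s - τ * r) ^ 2 + A ^ 2 := by positivity
    have h4 : 1 + ((τ * r - s) / A) ^ 2 = ((s - τ * r) ^ 2 + A ^ 2) / A ^ 2 := by
      field_simp; ring
    rw [h4]
    field_simp
  rw [intervalIntegral.integral_eq_sub_of_hasDerivAt (fun τ _ => hd τ)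
    ((poisson_continuous hA r s).intervalIntegrable _ _)]
  have h1 := Real.arctan_lt_pi_div_two ((1 * r - s) / A)
  have h2 := Real.neg_pi_div_two_lt_arctan ((0 * r - s) / A)
  have h3 : 0 < r⁻¹ := by positivity
  calc r⁻¹ * arctan ((1 * r - s) / A) - r⁻¹ * arctan ((0 * r - s) / A) =
      r⁻¹ * (arctan ((1 * r - s) / A) - arctan ((0 * r - s) / A)) := by ring
    _ ≤ r⁻¹ * π := by
        apply mul_le_mul_of_nonneg_left _ h3.le
        linarith
    _ = _ := by ring

section pot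

variable {ε : ℝ} (hε : 0 < ε) {u v e : ℂ} (he : ‖e‖ = 1) {r : ℝ} (hr : 0 < r) (huv : v - u = r * e)
include hε he hr huv

theorem Fs_perp_small (z : ℂ) {y : ℝ} (hy : |y| ≤ ε) :
    |Fs ε u v (z + Complex.I * y * e) - Fs ε u v z| ≤ 30 * π * |y| / r := by
  obtain ⟨s, hs⟩ : ∃ s, s = ((z - u) * (starRingEnd ℂ) e).re := ⟨_, rfl⟩
  obtain ⟨A, hA⟩ : ∃ A, A = |((z - u) * (starRingEnd ℂ) e).im| + ε := ⟨_, rfl⟩
  have hA0 : 0 < A := by rw [hA]; positivity
  have hee : e * (starRingEnd ℂ) e = 1 := by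
    rw [Complex.mul_conj, Complex.normSq_eq_norm_sq, he]; norm_num
  have hp : ∀ τ : ℝ, (z - pt u v τ) * (starRingEnd ℂ) e = (z - u) * (starRingEnd ℂ) e - ((τ * r : ℝ) : ℂ) := by
    intro τ
    unfold pt
    rw [huv]
    calc (z - (u + τ * (r * e))) * (starRingEnd ℂ) e =
        (z - u) * (starRingEnd ℂ) e - τ * r * (e * (starRingEnd ℂ) e) := by ring
      _ = _ := by rw [hee]; push_cast; ring
  unfold Fs
  rw [← intervalIntegral.integral_sub ((gA_pt_continuous hε u v _).intervalIntegrable _ _)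
    ((gA_pt_continuous hε u v z).intervalIntegrable _ _)]
  have hi : IntervalIntegrable (fun τ : ℝ => 30 * |y| * (A / ((s - τ * r) ^ 2 + A ^ 2))) volume 0 1 :=
    ((poisson_continuous hA0 r s).const_mul _ |>.intervalIntegrable _ _)
  have hc : Continuous fun τ : ℝ => gA ε (z + Complex.I * y * e - pt u v τ) - gA ε (z - pt u v τ) :=
    (gA_pt_continuous hε u v _).sub (gA_pt_continuous hε u v z)
  calc |∫ τ in (0 : ℝ)..1, (gA ε (z + Complex.I * y * e - pt u v τ) - gA ε (z - pt u v τ))|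
      ≤ ∫ τ in (0 : ℝ)..1, |gA ε (z + Complex.I * y * e - pt u v τ) - gA ε (z - pt u v τ)| :=
        intervalIntegral.abs_integral_le_integral_abs (by norm_num)
    _ ≤ ∫ τ in (0 : ℝ)..1, 30 * |y| * (A / ((s - τ * r) ^ 2 + A ^ 2)) := by
        apply intervalIntegral.integral_mono_on (by norm_num) (hc.abs.intervalIntegrable _ _) hi
        intro τ _
        have h1 := gA_perp hε he (z - pt u v τ) hy
        rw [show z - pt u v τ + Complex.I * y * e = z + Complex.I * y * e - pt u v τ by ring, hp τ,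
          Complex.sub_re, Complex.sub_im, Complex.ofReal_re, Complex.ofReal_im, sub_zero, ← hs, ← hA] at h1
        exact h1
    _ = 30 * |y| * ∫ τ in (0 : ℝ)..1, (A / ((s - τ * r) ^ 2 + A ^ 2)) :=
        intervalIntegral.integral_const_mul _ _
    _ ≤ 30 * |y| * (π / r) := by
        gcongr
        exact int_poisson hA0 hr s
    _ = _ := by ring

theorem Fs_perp_nat (n : ℕ) : ∀ (z : ℂ) (y : ℝ), |y| ≤ n * ε →
    |Fs ε u v (z + Complex.I * y * e) - Fs ε u v z| ≤ 30 * π * |y| / r := by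
  induction n with
  | zero =>
    intro z y hy
    rw [Nat.cast_zero, zero_mul] at hy
    have : y = 0 := abs_eq_zero.1 (le_antisymm hy (abs_nonneg y))
    rw [this]
    simp
  | succ n ih =>
    intro z y hy
    have hn : (0 : ℝ) < n + 1 := by positivity
    have hn0 : (0 : ℝ) ≤ n := by positivity
    push_cast at hy
    obtain ⟨y₂, hy₂⟩ : ∃ y₂, y₂ = y / (n + 1) := ⟨_, rfl⟩
    have hyy : y = n * y₂ + y₂ := by rw [hy₂]; field_simp
    have h2 : |y₂| ≤ ε := by
      rw [hy₂, abs_div, abs_of_pos hn, div_le_iff₀ hn]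
      linarith
    have h1 : |(n : ℝ) * y₂| ≤ n * ε := by
      rw [abs_mul, abs_of_nonneg hn0]
      gcongr
    have a1 := ih z (n * y₂) h1
    have a2 := Fs_perp_small hε he hr huv (z + Complex.I * ((n * y₂ : ℝ) : ℂ) * e) h2
    have e1 : z + Complex.I * ((n * y₂ : ℝ) : ℂ) * e + Complex.I * y₂ * e = z + Complex.I * y * e := by
      rw [hyy]; push_cast; ring
    rw [e1] at a2
    have e2 : |y| = |(n : ℝ) * y₂| + |y₂| := by
      have : |y| = (n + 1) * |y₂| := by
        rw [hyy, show (n : ℝ) * y₂ + y₂ = (n + 1) * y₂ by ring, abs_mul, abs_of_pos hn]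
      rw [this, abs_mul, abs_of_nonneg hn0]; ring
    calc |Fs ε u v (z + Complex.I * y * e) - Fs ε u v z| =
        |(Fs ε u v (z + Complex.I * y * e) - Fs ε u v (z + Complex.I * ((n * y₂ : ℝ) : ℂ) * e)) +
          (Fs ε u v (z + Complex.I * ((n * y₂ : ℝ) : ℂ) * e) - Fs ε u v z)| := by congr 1; ring
      _ ≤ _ := abs_add_le _ _
      _ ≤ 30 * π * |y₂| / r + 30 * π * |(n : ℝ) * y₂| / r := add_le_add a2 a1
      _ = _ := by rw [e2]; ring

theorem Fs_perp (z : ℂ) (y : ℝ) :
    |Fs ε u v (z + Complex.I * y * e) - Fs ε u v z| ≤ 30 * π * |y| / r := by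
  apply Fs_perp_nat hε he hr huv ⌈|y| / ε⌉₊
  have := Nat.le_ceil (|y| / ε)
  rwa [div_le_iff₀ hε] at this

end pot

/-! ### displacements along the segment -/

/-- the function `|p|^(-1/2)` -/
noncomputable def wq (p : ℂ) : ℝ := (√‖p‖)⁻¹

theorem wq_nonneg (p : ℂ) : 0 ≤ wq p := by unfold wq; positivity

theorem gA_hold' {ε : ℝ} (hε : 0 < ε) {p p' : ℂ} (hp : p ≠ 0) (hp' : p' ≠ 0) :
    |gA ε p - gA ε p'| ≤ 2 * √(2 * ‖p - p'‖) * (wq p + wq p') := by
  refine (gA_hold hε hp hp').trans (le_of_eq ?_)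
  rw [← Real.sqrt_eq_rpow, ← Real.sqrt_eq_rpow, Real.sqrt_div (by positivity),
    Real.sqrt_div (by positivity), wq, wq]
  ring

theorem pt_low {a b : ℂ} (hab : a ≠ b) (z : ℂ) (t : ℝ) :
    ‖a - b‖ * |t - ((z - a) / (b - a)).re| ≤ ‖z - pt a b t‖ := by
  have hba' : b - a ≠ 0 := sub_ne_zero.2 hab.symm
  have e : z - pt a b t = -((b - a) * ((t : ℂ) - (z - a) / (b - a))) := by
    unfold pt; field_simp; ring
  rw [e, norm_neg, norm_mul, norm_sub_rev a b]
  gcongr
  have := Complex.abs_re_le_norm ((t : ℂ) - (z - a) / (b - a))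
  simpa using this

theorem wq_pt {a b : ℂ} (hab : a ≠ b) (z : ℂ) {t : ℝ} (ht : t ≠ ((z - a) / (b - a)).re) :
    z ≠ pt a b t ∧ wq (z - pt a b t) ≤ (√‖a - b‖)⁻¹ * |t - ((z - a) / (b - a)).re| ^ (-(1 / 2 : ℝ)) := by
  have hpos : 0 < ‖a - b‖ := norm_pos_iff.2 (sub_ne_zero.2 hab)
  have h1 : 0 < |t - ((z - a) / (b - a)).re| := abs_pos.2 (sub_ne_zero.2 ht)
  have h2 := pt_low hab z t
  have h3 : 0 < ‖a - b‖ * |t - ((z - a) / (b - a)).re| := mul_pos hpos h1
  constructor
  · intro he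
    rw [← he, sub_self, norm_zero] at h2
    linarith
  · unfold wq
    rw [Real.rpow_neg h1.le, ← Real.sqrt_eq_rpow, ← mul_inv, ← Real.sqrt_mul hpos.le]
    apply inv_anti₀ (Real.sqrt_pos.2 h3)
    exact Real.sqrt_le_sqrt h2

theorem half_int (c : ℝ) : IntervalIntegrable (fun t : ℝ => |t - c| ^ (-(1 / 2 : ℝ))) volume 0 1 ∧
    ∫ t in (0 : ℝ)..1, |t - c| ^ (-(1 / 2 : ℝ)) ≤ 4 := by
  have := integral_abs_rpow_le (q := 1 / 2) (by norm_num) (by norm_num) c
  norm_num at this ⊢
  exact this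

/-- majorant for a segment, in terms of the distance from one end -/
theorem seg_major {a b z : ℂ} (hz : z ≠ a) : ∃ μ : ℝ → ℝ, IntervalIntegrable μ volume 0 1 ∧
    (∀ᵐ σ : ℝ, σ ∈ Set.Icc (0 : ℝ) 1 → z ≠ pt a b σ ∧ wq (z - pt a b σ) ≤ μ σ) ∧
    ∫ σ in (0 : ℝ)..1, μ σ ≤ 6 * wq (z - a) := by
  have hza : 0 < ‖z - a‖ := norm_pos_iff.2 (sub_ne_zero.2 hz)
  rcases le_or_gt (2 * ‖a - b‖) ‖z - a‖ with h | h
  · refine ⟨fun _ => 2 * wq (z - a), intervalIntegrable_const, Eventually.of_forall ?_, ?_⟩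
    · intro σ hσ
      have h1 : ‖z - a‖ / 4 ≤ ‖z - pt a b σ‖ := by
        have e : z - a = (z - pt a b σ) + σ * (b - a) := by unfold pt; ring
        have h2 : ‖z - a‖ ≤ ‖z - pt a b σ‖ + ‖(σ : ℂ) * (b - a)‖ := by
          nth_rewrite 1 [e]; exact norm_add_le _ _
        rw [norm_mul, Complex.norm_real, norm_of_nonneg hσ.1, norm_sub_rev b a] at h2
        have h3 : σ * ‖a - b‖ ≤ 1 * ‖a - b‖ := by gcongr; exact hσ.2
        linarith
      constructor
      · intro he
        rw [← he, sub_self, norm_zero] at h1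
        linarith
      · unfold wq
        have h4 : √(‖z - a‖ / 4) ≤ √‖z - pt a b σ‖ := Real.sqrt_le_sqrt h1
        have h5 : √(‖z - a‖ / 4) = √‖z - a‖ / 2 := by
          rw [Real.sqrt_div (norm_nonneg _), show (4 : ℝ) = 2 ^ 2 by norm_num, Real.sqrt_sq (by norm_num)]
        rw [h5] at h4
        have h6 : 0 < √‖z - a‖ := Real.sqrt_pos.2 hza
        calc (√‖z - pt a b σ‖)⁻¹ ≤ (√‖z - a‖ / 2)⁻¹ := inv_anti₀ (by positivity) h4
          _ = _ := by field_simp
    · have := wq_nonneg (z - a)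
      simp
      linarith
  · have hab : a ≠ b := by
      intro he
      rw [he, sub_self, norm_zero, mul_zero] at h
      exact absurd h (not_lt.2 (norm_nonneg _))
    have hpos : 0 < ‖a - b‖ := norm_pos_iff.2 (sub_ne_zero.2 hab)
    obtain ⟨i1, i2⟩ := half_int ((z - a) / (b - a)).re
    refine ⟨fun σ => (√‖a - b‖)⁻¹ * |σ - ((z - a) / (b - a)).re| ^ (-(1 / 2 : ℝ)), i1.const_mul _, ?_, ?_⟩
    · have hne : ∀ᵐ σ : ℝ, σ ≠ ((z - a) / (b - a)).re := by rw [ae_iff]; simp
      filter_upwards [hne] with σ hσ _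
      exact wq_pt hab z hσ
    · rw [intervalIntegral.integral_const_mul]
      have h1 : (√‖a - b‖)⁻¹ ≤ 3 / 2 * wq (z - a) := by
        unfold wq
        have h2 : √‖z - a‖ ≤ 3 / 2 * √‖a - b‖ := by
          rw [show (3 / 2 : ℝ) * √‖a - b‖ = √((3 / 2) ^ 2 * ‖a - b‖) by
            rw [Real.sqrt_mul (by positivity), Real.sqrt_sq (by norm_num)]]
          apply Real.sqrt_le_sqrt
          linarith
        have h3 : 0 < √‖z - a‖ := Real.sqrt_pos.2 hza
        have h4 : 0 < √‖a - b‖ := Real.sqrt_pos.2 hpos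
        rw [← div_eq_mul_inv, le_div_iff₀ h3, inv_mul_le_iff₀ h4]
        linarith
      have h0 := wq_nonneg (z - a)
      calc (√‖a - b‖)⁻¹ * ∫ σ in (0 : ℝ)..1, |σ - ((z - a) / (b - a)).re| ^ (-(1 / 2 : ℝ)) ≤
          (3 / 2 * wq (z - a)) * 4 := by
            apply mul_le_mul h1 i2 _ (by positivity)
            apply intervalIntegral.integral_nonneg (by norm_num)
            intro t _; positivity
        _ = _ := by ring

theorem Fs_par {ε : ℝ} (hε : 0 < ε) {u v e : ℂ} (he : ‖e‖ = 1) {r : ℝ} (hr : 0 < r)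
    (huv : v - u = r * e) {z : ℂ} (hzu : z ≠ u) (hzv : z ≠ v) (x : ℝ) :
    |Fs ε u v (z + x * e) - Fs ε u v z| ≤ 18 * |x| * (√r)⁻¹ * (wq (z - u) + wq (z - v)) := by
  set g : ℝ → ℝ := fun τ => gA ε (z - pt u v τ) with hg
  have hgc : Continuous g := gA_pt_continuous hε u v z
  have hgi : ∀ a b : ℝ, IntervalIntegrable g volume a b := fun a b => hgc.intervalIntegrable a b
  obtain ⟨lam, hlam⟩ : ∃ lam, lam = x / r := ⟨_, rfl⟩
  have hxr : x = lam * r := by rw [hlam]; field_simp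
  set k : ℝ → ℝ := fun τ => g τ - g (τ + 1) with hk
  have hkc : Continuous k := hgc.sub (hgc.comp (by fun_prop))
  have e1 : Fs ε u v (z + x * e) - Fs ε u v z = lam * ∫ σ in (0 : ℝ)..1, k (-lam * σ) := by
    have e2 : Fs ε u v (z + x * e) = ∫ τ in (-lam)..(1 - lam), g τ := by
      unfold Fs
      have := intervalIntegral.integral_comp_sub_right (a := 0) (b := 1) g lam
      rw [zero_sub] at this
      rw [← this]
      apply intervalIntegral.integral_congr
      intro τ _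
      simp only [hg]
      congr 1
      unfold pt
      rw [huv, hxr]; push_cast; ring
    have e3 : ∫ τ in (-lam)..(1 - lam), g τ =
        (∫ τ in (-lam)..0, g τ) + (∫ τ in (0 : ℝ)..1, g τ) + ∫ τ in (1 : ℝ)..(1 - lam), g τ := by
      rw [intervalIntegral.integral_add_adjacent_intervals (hgi _ _) (hgi _ _),
        intervalIntegral.integral_add_adjacent_intervals (hgi _ _) (hgi _ _)]
    have e4 : ∫ τ in (1 : ℝ)..(1 - lam), g τ = ∫ τ in (0 : ℝ)..(-lam), g (τ + 1) := by
      rw [intervalIntegral.integral_comp_add_right]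
      congr 1 <;> ring
    have e5 := intervalIntegral.smul_integral_comp_mul_left (a := 0) (b := 1) k (-lam)
    rw [mul_zero, mul_one, smul_eq_mul] at e5
    have e6 : ∫ τ in (0 : ℝ)..(-lam), k τ = (∫ τ in (0 : ℝ)..(-lam), g τ) -
        ∫ τ in (0 : ℝ)..(-lam), g (τ + 1) := by
      apply intervalIntegral.integral_sub (hgi _ _)
      exact (hgc.comp (by fun_prop)).intervalIntegrable _ _
    have e7 : ∫ τ in (-lam)..0, g τ = -∫ τ in (0 : ℝ)..(-lam), g τ :=
      intervalIntegral.integral_symm _ _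
    have e8 : Fs ε u v z = ∫ τ in (0 : ℝ)..1, g τ := rfl
    rw [e2, e3, e4, e8, e7]
    linarith
  obtain ⟨μ, m1, m2, m3⟩ := seg_major (b := u - x * e) hzu
  obtain ⟨ν, n1, n2, n3⟩ := seg_major (b := v - x * e) hzv
  have hbound : |∫ σ in (0 : ℝ)..1, k (-lam * σ)| ≤ 2 * √(2 * r) * (6 * wq (z - u) + 6 * wq (z - v)) := by
    calc |∫ σ in (0 : ℝ)..1, k (-lam * σ)| ≤ ∫ σ in (0 : ℝ)..1, |k (-lam * σ)| :=
          intervalIntegral.abs_integral_le_integral_abs (by norm_num)
      _ ≤ ∫ σ in (0 : ℝ)..1, 2 * √(2 * r) * (μ σ + ν σ) := by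
          apply intervalIntegral.integral_mono_ae_restrict (by norm_num)
            ((hkc.comp (by fun_prop)).abs.intervalIntegrable _ _) ((m1.add n1).const_mul _)
          rw [EventuallyLE, ae_restrict_iff' measurableSet_Icc]
          filter_upwards [m2, n2] with σ a1 a2 hσ
          obtain ⟨b1, b2⟩ := a1 hσ
          obtain ⟨b3, b4⟩ := a2 hσ
          have p1 : pt u v (-lam * σ) = pt u (u - x * e) σ := by
            unfold pt; rw [huv, hxr]; push_cast; ring
          have p2 : pt u v (-lam * σ + 1) = pt v (v - x * e) σ := by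
            have : v = u + r * e := by rw [← huv]; ring
            unfold pt; rw [huv, hxr, this]; push_cast; ring
          show |k (-lam * σ)| ≤ _
          simp only [hk, hg]
          rw [p1, p2]
          have h1 := gA_hold' hε (sub_ne_zero.2 b1) (sub_ne_zero.2 b3)
          have h2 : ‖z - pt u (u - x * e) σ - (z - pt v (v - x * e) σ)‖ = r := by
            have : z - pt u (u - x * e) σ - (z - pt v (v - x * e) σ) = v - u := by unfold pt; ring
            rw [this, huv, norm_mul, he, Complex.norm_real, norm_of_nonneg hr.le, mul_one]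
          rw [h2] at h1
          refine h1.trans ?_
          gcongr
      _ = 2 * √(2 * r) * ((∫ σ in (0 : ℝ)..1, μ σ) + ∫ σ in (0 : ℝ)..1, ν σ) := by
          rw [intervalIntegral.integral_const_mul, intervalIntegral.integral_add m1 n1]
      _ ≤ _ := by gcongr
  have hsr : 0 < √r := Real.sqrt_pos.2 hr
  have hsq : √r * √r = r := Real.mul_self_sqrt hr.le
  have h2r : √(2 * r) ≤ 3 / 2 * √r := by
    rw [show (3 / 2 : ℝ) * √r = √((3 / 2) ^ 2 * r) by
      rw [Real.sqrt_mul (by positivity), Real.sqrt_sq (by norm_num)]]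
    apply Real.sqrt_le_sqrt
    linarith
  have hw : 0 ≤ wq (z - u) + wq (z - v) := add_nonneg (wq_nonneg _) (wq_nonneg _)
  rw [e1, abs_mul]
  calc |lam| * |∫ σ in (0 : ℝ)..1, k (-lam * σ)| ≤
      |lam| * (2 * √(2 * r) * (6 * wq (z - u) + 6 * wq (z - v))) := by gcongr
    _ = |lam| * (12 * √(2 * r)) * (wq (z - u) + wq (z - v)) := by ring
    _ ≤ |lam| * (12 * (3 / 2 * √r)) * (wq (z - u) + wq (z - v)) := by gcongr
    _ = _ := by
        have h5 : |x| = |lam| * r := by rw [hxr, abs_mul, abs_of_pos hr]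
        have h6 : r * (√r)⁻¹ = √r := by
          nth_rewrite 1 [← hsq]
          field_simp
        rw [h5]
        calc |lam| * (12 * (3 / 2 * √r)) * (wq (z - u) + wq (z - v)) =
            18 * |lam| * √r * (wq (z - u) + wq (z - v)) := by ring
          _ = 18 * |lam| * (r * (√r)⁻¹) * (wq (z - u) + wq (z - v)) := by rw [h6]
          _ = _ := by ring

end Pool.Agent.H964
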